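import Pool.Agent.Lib.MP_939afb_co.Core

/-!
Caterpillars in coordinates: the powers and their minimum ranks.
-/

namespace MP939afb

open Matrix

variable {V : Type*}

/-- Coordinates on a caterpillar with spine `s 0, ..., s D`. -/
structure Coord (G : SimpleGraph V) (D : ℤ) where
  pos : V → ℤ
  ht : V → ℤ
  s : ℤ → V
  ht01 : ∀ v, ht v = 0 ∨ ht v = 1
  hs : ∀ i, 0 ≤ i → i ≤ D → pos (s i) = i ∧ ht (s i) = 0
  spine : ∀ v, ht v = 0 → s (pos v) = v
  rng : ∀ v, ht v ≤ pos v ∧ pos v + ht v ≤ D
  adj : ∀ u v, G.Adj u v ↔ (ht u = 0 ∧ ht v = 0 ∧ (pos u = pos v + 1 ∨ pos v = pos u + 1)) ∨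
    (pos u = pos v ∧ ht u + ht v = 1)

namespace Coord

variable {G : SimpleGraph V} {D : ℤ} (c : Coord G D)

/-- distance in coordinates (for distinct vertices) -/
def d (u v : V) : ℤ := c.ht u + c.ht v + |c.pos u - c.pos v|

include c in
lemma eq_of (u v : V) (hu : c.ht u = 0) (hv : c.ht v = 0) (h : c.pos u = c.pos v) : u = v := by
  rw [← c.spine u hu, ← c.spine v hv, h]

lemma walk_le : ∀ {u v : V} (p : G.Walk u v),
    (u = v ∨ c.d u v ≤ p.length) ∧ (c.pos u + c.ht u + c.pos v + c.ht v + p.length) % 2 = 0 := by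
  intro u v p
  induction p with
  | nil => simp; omega
  | @cons u w v h p ih =>
    obtain ⟨h1, h2⟩ := ih
    have ha := (c.adj u w).1 h
    have hu := c.ht01 u
    have hv := c.ht01 v
    have hw := c.ht01 w
    simp only [SimpleGraph.Walk.length_cons, d] at *
    push_cast
    refine ⟨Or.inr ?_, ?_⟩
    · rcases h1 with h1 | h1
      · subst h1
        rcases ha with ⟨ha, hb, hc | hc⟩ | ⟨ha, hb⟩
        · have : |c.pos u - c.pos w| = 1 := by rw [hc]; simp
          omega
        · have : |c.pos u - c.pos w| = 1 := by rw [hc]; simp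
          omega
        · have : |c.pos u - c.pos w| = 0 := by rw [ha]; simp
          omega
      · have htri : |c.pos u - c.pos v| ≤ |c.pos u - c.pos w| + |c.pos w - c.pos v| :=
          abs_sub_le _ _ _
        rcases ha with ⟨ha, hb, hc | hc⟩ | ⟨ha, hb⟩
        · have : |c.pos u - c.pos w| = 1 := by rw [hc]; simp
          omega
        · have : |c.pos u - c.pos w| = 1 := by rw [hc]; simp
          omega
        · have : |c.pos u - c.pos w| = 0 := by rw [ha]; simp
          have h3 : c.pos u - c.pos v = c.pos w - c.pos v := by rw [ha]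
          rw [h3]
          omega
    · omega

/-- the neighbour of `u` in direction of `v` -/
lemma step {u v : V} (huv : u ≠ v) : ∃ w, G.Adj u w ∧ (w = v ∨ c.d w v = c.d u v - 1) ∧
    (w = v → c.d u v = 1) := by
  have hu := c.ht01 u
  have hv := c.ht01 v
  have ru := c.rng u
  have rv := c.rng v
  rcases hu with hu | hu
  · rcases lt_trichotomy (c.pos u) (c.pos v) with h | h | h
    · obtain ⟨h1, h2⟩ := c.hs (c.pos u + 1) (by omega) (by omega)
      refine ⟨c.s (c.pos u + 1), (c.adj _ _).2 (Or.inl ⟨hu, h2, by omega⟩), Or.inr ?_, ?_⟩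
      · unfold d
        rw [h1, h2, hu, abs_of_nonpos (by omega), abs_of_nonpos (by omega)]
        ring
      · intro hw
        unfold d
        rw [hw] at h1 h2
        rw [h2, hu, abs_of_nonpos (by omega)]
        omega
    · have hv1 : c.ht v = 1 := by
        rcases hv with hv | hv
        · exact absurd (c.eq_of u v hu hv h) huv
        · exact hv
      refine ⟨v, (c.adj _ _).2 (Or.inr ⟨h, by omega⟩), Or.inl rfl, fun _ => ?_⟩
      unfold d
      rw [h, hu, hv1]
      simp
    · obtain ⟨h1, h2⟩ := c.hs (c.pos u - 1) (by omega) (by omega)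
      refine ⟨c.s (c.pos u - 1), (c.adj _ _).2 (Or.inl ⟨hu, h2, by omega⟩), Or.inr ?_, ?_⟩
      · unfold d
        rw [h1, h2, hu, abs_of_nonneg (by omega), abs_of_nonneg (by omega)]
        ring
      · intro hw
        unfold d
        rw [hw] at h1 h2
        rw [h2, hu, abs_of_nonneg (by omega)]
        omega
  · obtain ⟨h1, h2⟩ := c.hs (c.pos u) (by omega) (by omega)
    refine ⟨c.s (c.pos u), (c.adj _ _).2 (Or.inr ⟨h1.symm, by omega⟩), Or.inr ?_, ?_⟩
    · unfold d
      rw [h1, h2, hu]
      ring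
    · intro hw
      unfold d
      rw [hw] at h1 h2
      rw [h1, h2, hu]
      simp

lemma exists_nbr (hD : 1 ≤ D) (u : V) : ∃ w, G.Adj u w ∧ c.d w u ≤ 1 := by
  have hu := c.ht01 u
  have ru := c.rng u
  rcases hu with hu | hu
  · by_cases h : c.pos u = 0
    · obtain ⟨h1, h2⟩ := c.hs 1 (by omega) (by omega)
      refine ⟨c.s 1, (c.adj _ _).2 (Or.inl ⟨hu, h2, by omega⟩), ?_⟩
      unfold d
      rw [h1, h2, hu, h]
      simp
    · obtain ⟨h1, h2⟩ := c.hs (c.pos u - 1) (by omega) (by omega)
      refine ⟨c.s (c.pos u - 1), (c.adj _ _).2 (Or.inl ⟨hu, h2, by omega⟩), ?_⟩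
      unfold d
      rw [h1, h2, hu]
      simp
  · obtain ⟨h1, h2⟩ := c.hs (c.pos u) (by omega) (by omega)
    refine ⟨c.s (c.pos u), (c.adj _ _).2 (Or.inr ⟨h1.symm, by omega⟩), ?_⟩
    unfold d
    rw [h1, h2, hu]
    simp

lemma par_adj {u w : V} (h : G.Adj u w) :
    (c.pos u + c.ht u + c.pos w + c.ht w) % 2 = 1 := by
  have ha := (c.adj u w).1 h
  have hu := c.ht01 u
  have hw := c.ht01 w
  omega

lemma exists_walk (hD : 1 ≤ D) : ∀ (j : ℕ) (u v : V), (u = v ∨ c.d u v ≤ j) →
    (c.pos u + c.ht u + c.pos v + c.ht v + j) % 2 = 0 → ∃ p : G.Walk u v, p.length = j := by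
  intro j
  induction j with
  | zero =>
    intro u v h hpar
    have huv : u = v := by
      rcases h with h | h
      · exact h
      · unfold d at h
        have hu := c.ht01 u
        have hv := c.ht01 v
        have h3 := abs_nonneg (c.pos u - c.pos v)
        push_cast at h
        have h4 : |c.pos u - c.pos v| = 0 := by omega
        rw [abs_eq_zero] at h4
        exact c.eq_of u v (by omega) (by omega) (by omega)
    subst huv
    exact ⟨SimpleGraph.Walk.nil, rfl⟩
  | succ j ih =>
    intro u v h hpar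
    push_cast at h hpar
    by_cases huv : u = v
    · subst huv
      obtain ⟨w, hw, hd⟩ := c.exists_nbr hD u
      have hp := c.par_adj hw
      obtain ⟨p, hp⟩ := ih w u (Or.inr (by omega)) (by omega)
      exact ⟨SimpleGraph.Walk.cons hw p, by simp [hp]⟩
    · obtain ⟨w, hw, hd, hd2⟩ := c.step huv
      have hp := c.par_adj hw
      have h' : c.d u v ≤ j + 1 := by
        rcases h with h | h
        · exact absurd h huv
        · exact h
      obtain ⟨p, hp⟩ := ih w v (by rcases hd with hd | hd
                                   · exact Or.inl hd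
                                   · right; omega) (by omega)
      exact ⟨SimpleGraph.Walk.cons hw p, by simp [hp]⟩

lemma power_adj (hD : 1 ≤ D) (j : ℕ) (u v : V) : (power G j).Adj u v ↔
    u ≠ v ∧ c.d u v ≤ j ∧ (c.pos u + c.ht u + c.pos v + c.ht v + j) % 2 = 0 := by
  constructor
  · rintro ⟨h, p, hp⟩
    obtain ⟨h1, h2⟩ := c.walk_le p
    rw [hp] at h1 h2
    exact ⟨h, h1.resolve_left h, h2⟩
  · rintro ⟨h, h1, h2⟩
    exact ⟨h, c.exists_walk hD j u v (Or.inr h1) h2⟩

end Coord

end MP939afb
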