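import Pool.Agent.Lib.MP_939afb_co.Cat

/-!
Caterpillars in coordinates: explicit matrices and the bounds for the minimum rank.
-/

namespace MP939afb

open Matrix

variable {V : Type*}

namespace Coord

variable {G : SimpleGraph V} {D : ℤ} (c : Coord G D)

/-- `v` is close to the point `t` -/
def Near (m t : ℤ) (v : V) : Prop :=
  |c.pos v - t| + c.ht v ≤ m ∧ (c.pos v + c.ht v + m + t) % 2 = 0

open Classical in
/-- indicator vector -/
noncomputable def e (m t : ℤ) (v : V) : ℝ := if c.Near m t v then 1 else 0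

/-- the Gram matrix -/
noncomputable def M (m : ℤ) (S : Finset ℤ) : Matrix V V ℝ :=
  ∑ t ∈ S, vecMulVec (c.e m t) (c.e m t)

lemma M_apply (m : ℤ) (S : Finset ℤ) (u v : V) :
    c.M m S u v = ∑ t ∈ S, c.e m t u * c.e m t v := by
  unfold M
  rw [Matrix.sum_apply]
  rfl

lemma e_nonneg (m t : ℤ) (v : V) : 0 ≤ c.e m t v := by
  unfold e
  split_ifs <;> simp

lemma M_nonneg (m : ℤ) (S : Finset ℤ) (u v : V) : 0 ≤ c.M m S u v := by
  rw [M_apply]
  exact Finset.sum_nonneg fun t _ => mul_nonneg (c.e_nonneg m t u) (c.e_nonneg m t v)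

lemma M_ne (m : ℤ) (S : Finset ℤ) (u v : V) :
    c.M m S u v ≠ 0 ↔ ∃ t ∈ S, c.Near m t u ∧ c.Near m t v := by
  rw [M_apply]
  constructor
  · intro h
    obtain ⟨t, ht, h2⟩ := Finset.exists_ne_zero_of_sum_ne_zero h
    refine ⟨t, ht, ?_, ?_⟩
    · by_contra hn
      exact h2 (by unfold e; rw [if_neg hn]; simp)
    · by_contra hn
      exact h2 (by unfold e; rw [if_neg hn]; simp)
  · rintro ⟨t, ht, h1, h2⟩
    refine ne_of_gt (lt_of_lt_of_le ?_ (Finset.single_le_sum
      (f := fun t => c.e m t u * c.e m t v)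
      (fun t _ => mul_nonneg (c.e_nonneg m t u) (c.e_nonneg m t v)) ht))
    unfold e
    rw [if_pos h1, if_pos h2]
    norm_num

lemma M_symm (m : ℤ) (S : Finset ℤ) (u v : V) : c.M m S u v = c.M m S v u := by
  rw [M_apply, M_apply]
  exact Finset.sum_congr rfl fun t _ => mul_comm _ _

lemma M_rank [Fintype V] (m : ℤ) (S : Finset ℤ) : (c.M m S).rank ≤ S.card := by
  have := rank_sum_le S (fun t => vecMulVec (c.e m t) (c.e m t)) 1
    (fun t _ => Matrix.rank_vecMulVec_le _ _)
  simpa [M] using this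

lemma near_d {m t : ℤ} {u v : V} (hu : c.Near m t u) (hv : c.Near m t v) :
    c.d u v ≤ 2 * m ∧ (c.pos u + c.ht u + c.pos v + c.ht v) % 2 = 0 := by
  obtain ⟨h1, h2⟩ := hu
  obtain ⟨h3, h4⟩ := hv
  have htri : |c.pos u - c.pos v| ≤ |c.pos u - t| + |c.pos v - t| := by
    rw [abs_sub_comm (c.pos v) t]
    exact abs_sub_le _ _ _
  unfold d
  constructor <;> omega

lemma exists_near {m : ℤ} (hm : 1 ≤ m) (hD : 2 * m + 1 ≤ D) {u v : V}
    (h : c.d u v ≤ 2 * m) (hpar : (c.pos u + c.ht u + c.pos v + c.ht v) % 2 = 0) :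
    ∃ t, m ≤ t ∧ t ≤ D - m ∧ c.Near m t u ∧ c.Near m t v := by
  have hu := c.ht01 u
  have hv := c.ht01 v
  have ru := c.rng u
  have rv := c.rng v
  unfold d at h
  have h1 : c.pos u - c.pos v ≤ 2 * m - c.ht u - c.ht v :=
    le_trans (le_abs_self _) (by omega)
  have h2 : -(c.pos u - c.pos v) ≤ 2 * m - c.ht u - c.ht v :=
    le_trans (neg_le_abs _) (by omega)
  have key : ∃ t, m ≤ t ∧ t ≤ D - m ∧ c.pos u - m + c.ht u ≤ t ∧ t ≤ c.pos u + m - c.ht u ∧
      c.pos v - m + c.ht v ≤ t ∧ t ≤ c.pos v + m - c.ht v ∧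
      (c.pos u + c.ht u + m + t) % 2 = 0 := by
    by_cases ha : c.pos v - m + c.ht v ≤ c.pos u - m + c.ht u
    · by_cases hb : m ≤ c.pos u - m + c.ht u
      · exact ⟨c.pos u - m + c.ht u, by omega⟩
      · by_cases hc : (c.pos u + c.ht u + m + m) % 2 = 0
        · exact ⟨m, by omega⟩
        · exact ⟨m + 1, by omega⟩
    · by_cases hb : m ≤ c.pos v - m + c.ht v
      · exact ⟨c.pos v - m + c.ht v, by omega⟩
      · by_cases hc : (c.pos u + c.ht u + m + m) % 2 = 0
        · exact ⟨m, by omega⟩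
        · exact ⟨m + 1, by omega⟩
  obtain ⟨t, ht⟩ := key
  have h5 : |c.pos u - t| ≤ m - c.ht u := abs_le.2 (by omega)
  have h6 : |c.pos v - t| ≤ m - c.ht v := abs_le.2 (by omega)
  exact ⟨t, by omega, by omega, ⟨by omega, by omega⟩, ⟨by omega, by omega⟩⟩

include c in
/-- even powers -/
lemma mr_even_le [Fintype V] {m : ℕ} (hm : 1 ≤ m) (hD : 2 * (m : ℤ) + 1 ≤ D) :
    (mr (power G (2 * m)) : ℤ) ≤ D + 1 - 2 * m := by
  have hS : MatS (power G (2 * m)) (c.M m (Finset.Icc (m : ℤ) (D - m))) := by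
    refine ⟨?_, ?_⟩
    · ext u v
      rw [Matrix.transpose_apply]
      exact c.M_symm _ _ v u
    · intro u v huv
      rw [c.M_ne, c.power_adj (by omega)]
      constructor
      · rintro ⟨t, -, h1, h2⟩
        obtain ⟨h3, h4⟩ := c.near_d h1 h2
        refine ⟨huv, ?_, ?_⟩
        · push_cast; omega
        · push_cast; omega
      · rintro ⟨-, h1, h2⟩
        push_cast at h1 h2
        obtain ⟨t, h3, h4, h5, h6⟩ := c.exists_near (m := m) (by omega) hD h1 (by omega)
        exact ⟨t, Finset.mem_Icc.2 ⟨h3, h4⟩, h5, h6⟩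
  have h1 := mr_le hS (c.M_rank _ _)
  rw [Int.card_Icc] at h1
  omega

open Classical in
/-- adjacency matrix -/
noncomputable def N (G : SimpleGraph V) : Matrix V V ℝ := fun u v => if G.Adj u v then 1 else 0

lemma N_nonneg (G : SimpleGraph V) (u v : V) : 0 ≤ N G u v := by
  unfold N
  split_ifs <;> simp

lemma N_symm (G : SimpleGraph V) (u v : V) : N G u v = N G v u := by
  unfold N
  by_cases h : G.Adj u v
  · rw [if_pos h, if_pos h.symm]
  · rw [if_neg h, if_neg (fun h' => h h'.symm)]

lemma mul_ne [Fintype V] {A B : Matrix V V ℝ} (hA : ∀ u v, 0 ≤ A u v) (hB : ∀ u v, 0 ≤ B u v)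
    (u v : V) : (A * B) u v ≠ 0 ↔ ∃ w, A u w ≠ 0 ∧ B w v ≠ 0 := by
  rw [Matrix.mul_apply]
  constructor
  · intro h
    obtain ⟨w, -, hw⟩ := Finset.exists_ne_zero_of_sum_ne_zero h
    exact ⟨w, left_ne_zero_of_mul hw, right_ne_zero_of_mul hw⟩
  · rintro ⟨w, h1, h2⟩
    refine ne_of_gt (lt_of_lt_of_le ?_ (Finset.single_le_sum (f := fun w => A u w * B w v)
      (fun w _ => mul_nonneg (hA u w) (hB w v)) (Finset.mem_univ w)))
    exact mul_pos (lt_of_le_of_ne (hA u w) (Ne.symm h1)) (lt_of_le_of_ne (hB w v) (Ne.symm h2))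

lemma N_ne (G : SimpleGraph V) (u v : V) : N G u v ≠ 0 ↔ G.Adj u v := by
  unfold N
  split_ifs with h <;> simp [h]

include c in
/-- odd powers: any class of points gives an upper bound -/
lemma mr_odd_le_class [Fintype V] {m : ℕ} (hm : 1 ≤ m) (hD : 2 * (m : ℤ) + 1 ≤ D) (ε : ℤ)
    (hε : ε = 0 ∨ ε = 1) :
    mr (power G (2 * m + 1)) ≤
      2 * ((Finset.Icc (m : ℤ) (D - m)).filter fun t => t % 2 = ε).card := by
  classical
  set S := (Finset.Icc (m : ℤ) (D - m)).filter fun t => t % 2 = ε with hSdef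
  set A := c.M m S with hA
  have hAn : ∀ u v, 0 ≤ A u v := c.M_nonneg m S
  have hNn := N_nonneg G
  have hAsymm : Aᵀ = A := by
    ext u v
    rw [Matrix.transpose_apply]
    exact c.M_symm _ _ v u
  have hNsymm : (N G)ᵀ = N G := by
    ext u v
    exact N_symm G v u
  have hmat : MatS (power G (2 * m + 1)) (A * N G + N G * A) := by
    refine ⟨?_, ?_⟩
    · unfold Matrix.IsSymm
      rw [Matrix.transpose_add, Matrix.transpose_mul, Matrix.transpose_mul, hAsymm, hNsymm,
        add_comm]
    · intro u v huv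
      rw [c.power_adj (by omega)]
      have hpos1 : 0 ≤ (A * N G) u v := by
        rw [Matrix.mul_apply]
        exact Finset.sum_nonneg fun w _ => mul_nonneg (hAn u w) (hNn w v)
      have hpos2 : 0 ≤ (N G * A) u v := by
        rw [Matrix.mul_apply]
        exact Finset.sum_nonneg fun w _ => mul_nonneg (hNn u w) (hAn w v)
      have hsum : (A * N G + N G * A) u v ≠ 0 ↔ (A * N G) u v ≠ 0 ∨ (N G * A) u v ≠ 0 := by
        rw [Matrix.add_apply]
        constructor
        · intro h
          by_contra hcon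
          push Not at hcon
          rw [hcon.1, hcon.2, add_zero] at h
          exact h rfl
        · rintro (h | h)
          · exact ne_of_gt (add_pos_of_pos_of_nonneg (lt_of_le_of_ne hpos1 (Ne.symm h)) hpos2)
          · exact ne_of_gt (add_pos_of_nonneg_of_pos hpos1 (lt_of_le_of_ne hpos2 (Ne.symm h)))
      rw [hsum, mul_ne hAn hNn, mul_ne hNn hAn]
      -- bound for one side
      have hstep : ∀ a b w : V, A a w ≠ 0 → G.Adj w b →
          c.d a b ≤ 2 * m + 1 ∧ (c.pos a + c.ht a + c.pos b + c.ht b) % 2 = 1 := by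
        intro a b w h1 h2
        rw [hA, c.M_ne] at h1
        obtain ⟨t, -, h3, h4⟩ := h1
        obtain ⟨h5, h6⟩ := c.near_d h3 h4
        have h7 := (c.adj w b).1 h2
        have hw := c.ht01 w
        have hb := c.ht01 b
        have ha := c.ht01 a
        unfold d at *
        have htri : |c.pos a - c.pos b| ≤ |c.pos a - c.pos w| + |c.pos w - c.pos b| :=
          abs_sub_le _ _ _
        rcases h7 with ⟨h7, h8, h9⟩ | ⟨h7, h8⟩
        · have : |c.pos w - c.pos b| ≤ 1 := abs_le.2 (by omega)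
          constructor <;> omega
        · have : |c.pos w - c.pos b| ≤ 0 := abs_le.2 (by omega)
          constructor <;> omega
      have hback : ∀ a b : V, a ≠ b → c.d a b ≤ 2 * m + 1 →
          (c.pos a + c.ht a + c.pos b + c.ht b) % 2 = 1 →
          (c.pos a + c.ht a + m + ε) % 2 = 0 → ∃ w, A a w ≠ 0 ∧ N G w b ≠ 0 := by
        intro a b hab h1 h2 h3
        obtain ⟨w, hw, hd, hd2⟩ := c.step (Ne.symm hab)
        have hpar := c.par_adj hw
        have hsy : ∀ x y : V, c.d x y = c.d y x := by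
          intro x y
          unfold d
          rw [abs_sub_comm]
          ring
        have hwa : c.d w a ≤ 2 * m := by
          rcases hd with hd | hd
          · subst hd
            have := c.ht01 w
            unfold d
            simp
            omega
          · have := hsy a b
            omega
        obtain ⟨t, h4, h5, h6, h7⟩ := c.exists_near (m := m) (by omega) hD
          (u := a) (v := w) (by rw [hsy]; exact hwa) (by omega)
        refine ⟨w, ?_, (N_ne G w b).2 hw.symm⟩
        rw [hA, c.M_ne]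
        refine ⟨t, ?_, h6, h7⟩
        rw [hSdef, Finset.mem_filter, Finset.mem_Icc]
        have := h6.2
        exact ⟨⟨h4, h5⟩, by omega⟩
      have hsy : ∀ x y : V, c.d x y = c.d y x := by
        intro x y
        unfold d
        rw [abs_sub_comm]
        ring
      constructor
      · rintro (⟨w, h1, h2⟩ | ⟨w, h1, h2⟩)
        · obtain ⟨h3, h4⟩ := hstep u v w h1 ((N_ne G w v).1 h2)
          push_cast
          exact ⟨huv, h3, by omega⟩
        · have h2' : A v w ≠ 0 := by
            have h5 : A v w = A w v := c.M_symm _ _ v w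
            rw [h5]
            exact h2
          obtain ⟨h3, h4⟩ := hstep v u w h2' ((N_ne G u w).1 h1).symm
          rw [hsy] at h3
          push_cast
          exact ⟨huv, h3, by omega⟩
      · rintro ⟨-, h1, h2⟩
        push_cast at h1 h2
        by_cases hcl : (c.pos u + c.ht u + m + ε) % 2 = 0
        · exact Or.inl (hback u v huv h1 (by omega) hcl)
        · obtain ⟨w, h3, h4⟩ := hback v u (Ne.symm huv) (by rw [hsy]; exact h1) (by omega)
            (by omega)
          refine Or.inr ⟨w, ?_, ?_⟩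
          · rw [N_symm]
            exact h4
          · have h5 : A w v = A v w := c.M_symm _ _ w v
            rw [h5]
            exact h3
  refine mr_le hmat ?_
  refine le_trans (rank_add_le _ _) ?_
  have h1 := le_trans (Matrix.rank_mul_le_left A (N G)) (c.M_rank m S)
  have h2 := le_trans (Matrix.rank_mul_le_right (N G) A) (c.M_rank m S)
  omega

include c in
lemma mr_odd_le [Fintype V] {m : ℕ} (hm : 1 ≤ m) (hD : 2 * (m : ℤ) + 1 ≤ D) :
    (mr (power G (2 * m + 1)) : ℤ) ≤ D + 1 - 2 * m := by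
  have h0 := c.mr_odd_le_class hm hD 0 (Or.inl rfl)
  have h1 := c.mr_odd_le_class hm hD 1 (Or.inr rfl)
  have hc : ((Finset.Icc (m : ℤ) (D - m)).filter fun t => t % 2 = 0).card +
      ((Finset.Icc (m : ℤ) (D - m)).filter fun t => t % 2 = 1).card =
      (Finset.Icc (m : ℤ) (D - m)).card := by
    rw [← Finset.card_filter_add_card_filter_not (s := Finset.Icc (m : ℤ) (D - m))
      (fun t => t % 2 = 0)]
    congr 2
    apply Finset.filter_congr
    intro t _
    omega
  rw [Int.card_Icc] at hc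
  omega

include c in
/-- the spine gives a lower bound -/
lemma le_mr_power [Fintype V] {j : ℕ} (hj : 1 ≤ j) (hD : (j : ℤ) ≤ D) :
    D + 1 - j ≤ (mr (power G j) : ℤ) := by
  obtain ⟨D', rfl⟩ : ∃ D' : ℕ, (D' : ℤ) = D := ⟨D.toNat, by omega⟩
  have h := card_le_mr (power G j) (ι := Fin (D' + 1 - j)) (fun i => c.s (i : ℕ))
    (fun i => c.s ((i : ℕ) + (j : ℤ))) (fun i => (i : ℕ)) ?_ ?_
  · rw [Fintype.card_fin] at h
    omega
  · intro i
    have hi := i.2
    obtain ⟨h1, h2⟩ := c.hs ((i : ℕ) : ℤ) (by omega) (by omega)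
    obtain ⟨h3, h4⟩ := c.hs (((i : ℕ) : ℤ) + j) (by omega) (by omega)
    rw [c.power_adj (by omega)]
    refine ⟨?_, ?_, ?_⟩
    · intro h
      rw [h] at h1
      omega
    · unfold d
      rw [h1, h2, h3, h4]
      have : |((i : ℕ) : ℤ) - (((i : ℕ) : ℤ) + j)| = j := by
        rw [show ((i : ℕ) : ℤ) - (((i : ℕ) : ℤ) + j) = -(j : ℤ) by ring, abs_neg]
        exact abs_of_nonneg (by omega)
      omega
    · rw [h1, h2, h3, h4]
      omega
  · intro i i' hne hw
    have hi := i.2
    have hi' := i'.2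
    have hlt : (i : ℕ) < (i' : ℕ) := lt_of_le_of_ne hw (fun h => hne (Fin.ext h))
    obtain ⟨h1, h2⟩ := c.hs ((i : ℕ) : ℤ) (by omega) (by omega)
    obtain ⟨h3, h4⟩ := c.hs (((i' : ℕ) : ℤ) + j) (by omega) (by omega)
    constructor
    · intro h
      rw [h] at h1
      omega
    · rw [c.power_adj (by omega)]
      rintro ⟨-, h5, -⟩
      unfold d at h5
      rw [h1, h2, h3, h4] at h5
      have := neg_le_abs (((i : ℕ) : ℤ) - (((i' : ℕ) : ℤ) + j))
      omega

include c in
/-- every power has minimum rank at least two -/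
lemma two_le_mr [Fintype V] {j : ℕ} (hj : 1 ≤ j) (hD : 3 ≤ D) : 2 ≤ mr (power G j) := by
  obtain ⟨a0, b0⟩ := c.hs 0 (by omega) (by omega)
  obtain ⟨a1, b1⟩ := c.hs 1 (by omega) (by omega)
  obtain ⟨a2, b2⟩ := c.hs 2 (by omega) (by omega)
  obtain ⟨a3, b3⟩ := c.hs 3 (by omega) (by omega)
  have ne : ∀ x y : V, c.pos x ≠ c.pos y → x ≠ y := fun x y h hxy => h (by rw [hxy])
  by_cases hpar : j % 2 = 0
  · have h := card_le_mr (power G j) (ι := Fin 2) ![c.s 0, c.s 1] ![c.s 2, c.s 3]
      (fun i => (i : ℕ)) ?_ ?_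
    · simpa using h
    · intro i
      rw [c.power_adj (by omega)]
      fin_cases i
      · refine ⟨ne _ _ ?_, ?_, ?_⟩
        · simp [a0, a2]
        · simp [d, a0, b0, a2, b2]; omega
        · simp [a0, b0, a2, b2]; omega
      · refine ⟨ne _ _ ?_, ?_, ?_⟩
        · simp [a1, a3]
        · simp [d, a1, b1, a3, b3]; omega
        · simp [a1, b1, a3, b3]; omega
    · intro i i' hne hw
      rw [c.power_adj (by omega)]
      fin_cases i <;> fin_cases i'
      · exact absurd rfl hne
      · refine ⟨ne _ _ ?_, ?_⟩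
        · simp [a0, a3]
        · rintro ⟨-, -, h⟩
          simp [a0, b0, a3, b3] at h
          omega
      · simp at hw
      · exact absurd rfl hne
  · have h := card_le_mr (power G j) (ι := Fin 2) ![c.s 0, c.s 1] ![c.s 1, c.s 2]
      (fun i => (i : ℕ)) ?_ ?_
    · simpa using h
    · intro i
      rw [c.power_adj (by omega)]
      fin_cases i
      · refine ⟨ne _ _ ?_, ?_, ?_⟩
        · simp [a0, a1]
        · simp [d, a0, b0, a1, b1]; omega
        · simp [a0, b0, a1, b1]; omega
      · refine ⟨ne _ _ ?_, ?_, ?_⟩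
        · simp [a1, a2]
        · simp [d, a1, b1, a2, b2]; omega
        · simp [a1, b1, a2, b2]; omega
    · intro i i' hne hw
      rw [c.power_adj (by omega)]
      fin_cases i <;> fin_cases i'
      · exact absurd rfl hne
      · refine ⟨ne _ _ ?_, ?_⟩
        · simp [a0, a2]
        · rintro ⟨-, -, h⟩
          simp [a0, b0, a2, b2] at h
          omega
      · simp at hw
      · exact absurd rfl hne

end Coord

end MP939afb
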