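import Pool.Agent.Lib.MP_939afb_co.Core

/-!
Distances in trees.
-/

namespace MP939afb

variable {V : Type*} {G : SimpleGraph V}

/-- in a tree every path is a shortest path -/
lemma tree_dist_eq (hT : G.IsTree) {u v : V} (p : G.Walk u v) (hp : p.IsPath) :
    G.dist u v = p.length := by
  obtain ⟨q, hq, hl⟩ := hT.connected.exists_path_of_dist u v
  have h : (⟨p, hp⟩ : G.Path u v) = ⟨q, hq⟩ := (hT.isAcyclic.subsingleton_path u v).elim _ _
  have h' : p = q := congrArg Subtype.val h
  rw [h', hl]

lemma tree_dist_getVert (hT : G.IsTree) {u v : V} (p : G.Walk u v) (hp : p.IsPath) {i : ℕ}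
    (hi : i ≤ p.length) : G.dist u (p.getVert i) = i := by
  rw [tree_dist_eq hT (p.take i) (hp.take i), SimpleGraph.Walk.take_length]
  omega

/-- a shortest path does not meet vertices that are farther away -/
lemma dist_le_of_mem {u v w : V} (p : G.Walk u v) (hw : w ∈ p.support) :
    G.dist u w ≤ p.length := by
  classical
  exact le_trans (SimpleGraph.dist_le (p.takeUntil w hw)) (p.length_takeUntil_le_length hw)

/-- unique parent -/
lemma tree_parent_unique (hT : G.IsTree) (a : V) {w x y : V} (hx : G.Adj x w) (hy : G.Adj y w)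
    (h1 : G.dist a x < G.dist a w) (h2 : G.dist a y < G.dist a w) : x = y := by
  obtain ⟨p, hp, hpl⟩ := hT.connected.exists_path_of_dist a x
  obtain ⟨q, hq, hql⟩ := hT.connected.exists_path_of_dist a y
  have hwp : w ∉ p.support := fun h => by
    have := dist_le_of_mem p h
    omega
  have hwq : w ∉ q.support := fun h => by
    have := dist_le_of_mem q h
    omega
  have h : (⟨p.concat hx, hp.concat hwp hx⟩ : G.Path a w) = ⟨q.concat hy, hq.concat hwq hy⟩ :=
    (hT.isAcyclic.subsingleton_path a w).elim _ _
  have h' : p.concat hx = q.concat hy := congrArg Subtype.val h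
  have h3 := congrArg SimpleGraph.Walk.penultimate h'
  simpa using h3

lemma tree_adj_dist (hT : G.IsTree) (a : V) {u v : V} (h : G.Adj u v) :
    G.dist a u = G.dist a v + 1 ∨ G.dist a v = G.dist a u + 1 :=
  hT.dist_eq_dist_add_one_of_adj a h

end MP939afb
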