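import Pool.Agent.Lib.MP_939afb_co.Cat2
import Pool.Agent.Lib.MP_939afb_co.Tree

/-!
Every caterpillar has coordinates.
-/

namespace MP939afb

open Matrix

variable {V : Type*} {G : SimpleGraph V}

/-- `p` is a path whose closed neighbourhood is everything -/
def Dom (G : SimpleGraph V) {a b : V} (p : G.Walk a b) : Prop :=
  p.IsPath ∧ ∀ v : V, v ∈ p.support ∨ ∃ w ∈ p.support, G.Adj w v

/-- A caterpillar: a tree with a dominating path. -/
def IsCaterpillar (G : SimpleGraph V) : Prop :=
  G.IsTree ∧ ∃ (a b : V) (p : G.Walk a b), p.IsPath ∧
    ∀ v : V, v ∈ p.support ∨ ∃ w ∈ p.support, G.Adj w v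

lemma exists_max_dom [Fintype V] (h : ∃ (a b : V) (p : G.Walk a b), Dom G p) :
    ∃ (a b : V) (p : G.Walk a b), Dom G p ∧
      ∀ (a' b' : V) (q : G.Walk a' b'), Dom G q → q.length ≤ p.length := by
  classical
  set S : Set ℕ := {n | ∃ (a b : V) (p : G.Walk a b), Dom G p ∧ p.length = n} with hS
  have hne : S.Nonempty := by
    obtain ⟨a, b, p, hp⟩ := h
    exact ⟨p.length, a, b, p, hp, rfl⟩
  have hb : BddAbove S := by
    refine ⟨Fintype.card V, ?_⟩
    rintro n ⟨a, b, p, hp, rfl⟩
    exact hp.1.length_lt.le
  obtain ⟨a, b, p, hp, hl⟩ := Nat.sSup_mem hne hb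
  refine ⟨a, b, p, hp, ?_⟩
  intro a' b' q hq
  rw [hl]
  exact le_csSup hb ⟨a', b', q, hq, rfl⟩

lemma dom_cons {a b v : V} {p : G.Walk a b} (h : Dom G p) (hv : v ∉ p.support)
    (hadj : G.Adj v a) : Dom G (SimpleGraph.Walk.cons hadj p) := by
  refine ⟨h.1.cons hv, ?_⟩
  intro w
  rw [SimpleGraph.Walk.support_cons]
  rcases h.2 w with hw | ⟨x, hx, hxw⟩
  · exact Or.inl (List.mem_cons_of_mem _ hw)
  · exact Or.inr ⟨x, List.mem_cons_of_mem _ hx, hxw⟩

lemma dom_reverse {a b : V} {p : G.Walk a b} (h : Dom G p) : Dom G p.reverse := by
  refine ⟨h.1.reverse, ?_⟩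
  intro w
  rw [SimpleGraph.Walk.support_reverse]
  simpa using h.2 w

section coord

variable {a b : V} {p : G.Walk a b}

/-- neighbours of path vertices off the path are one step farther from `a` -/
lemma off_dist (hT : G.IsTree) (hp : p.IsPath) {v : V} (hv : v ∉ p.support) {i : ℕ}
    (hi : i ≤ p.length) (hadj : G.Adj (p.getVert i) v) : G.dist a v = i + 1 := by
  have hd := tree_dist_getVert hT p hp hi
  rcases tree_adj_dist hT a hadj with h | h
  · exfalso
    have hi0 : i ≠ 0 := by omega
    have hd' := tree_dist_getVert hT p hp (i := i - 1) (by omega)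
    have hadj' : G.Adj (p.getVert (i - 1)) (p.getVert i) := by
      have := p.adj_getVert_succ (i := i - 1) (by omega)
      rwa [Nat.sub_add_cancel (by omega)] at this
    have := tree_parent_unique hT a hadj.symm hadj' (by omega) (by omega)
    apply hv
    rw [this]
    exact p.getVert_mem_support _
  · omega

lemma exists_coord (hT : G.IsTree) (hdom : Dom G p)
    (hmax : ∀ (a' b' : V) (q : G.Walk a' b'), Dom G q → q.length ≤ p.length) :
    Nonempty (Coord G (p.length : ℤ)) := by
  classical
  have hp := hdom.1
  -- vertices on the path
  have hon : ∀ v ∈ p.support, G.dist a v ≤ p.length ∧ p.getVert (G.dist a v) = v := by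
    intro v hv
    obtain ⟨n, hn, hnl⟩ := SimpleGraph.Walk.mem_support_iff_exists_getVert.1 hv
    have := tree_dist_getVert hT p hp hnl
    rw [hn] at this
    rw [this]
    exact ⟨hnl, hn⟩
  -- vertices off the path
  have hoff : ∀ v, v ∉ p.support → ∃ i, 1 ≤ i ∧ i + 1 ≤ p.length ∧ G.Adj (p.getVert i) v ∧
      G.dist a v = i + 1 := by
    intro v hv
    rcases hdom.2 v with h | ⟨w, hw, hadj⟩
    · exact absurd h hv
    · obtain ⟨n, hn, hnl⟩ := SimpleGraph.Walk.mem_support_iff_exists_getVert.1 hw
      rw [← hn] at hadj
      have hdist := off_dist hT hp hv hnl hadj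
      refine ⟨n, ?_, ?_, hadj, hdist⟩
      · by_contra h0
        have h0' : n = 0 := by omega
        rw [h0', SimpleGraph.Walk.getVert_zero] at hadj
        have := hmax _ _ _ (dom_cons hdom hv hadj.symm)
        rw [SimpleGraph.Walk.length_cons] at this
        omega
      · by_contra h0
        have h0' : n = p.length := by omega
        rw [h0', SimpleGraph.Walk.getVert_length] at hadj
        have hv' : v ∉ p.reverse.support := by
          rw [SimpleGraph.Walk.support_reverse]
          simpa using hv
        have := hmax _ _ _ (dom_cons (dom_reverse hdom) hv' hadj.symm)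
        rw [SimpleGraph.Walk.length_cons, SimpleGraph.Walk.length_reverse] at this
        omega
  have hoffadj : ∀ v, v ∉ p.support → ∀ i ≤ p.length, G.dist a v = i + 1 →
      G.Adj (p.getVert i) v := by
    intro v hv i hi hd
    obtain ⟨i', h1, h2, h3, h4⟩ := hoff v hv
    have : i = i' := by omega
    rw [this]
    exact h3
  refine ⟨⟨fun v => (G.dist a v : ℤ) - (if v ∈ p.support then 0 else 1),
    fun v => if v ∈ p.support then 0 else 1, fun i => p.getVert i.toNat, ?_, ?_, ?_, ?_, ?_⟩⟩
  · intro v
    by_cases h : v ∈ p.support <;> simp [h]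
  · intro i h0 h1
    have hm : p.getVert i.toNat ∈ p.support := p.getVert_mem_support _
    have hd := tree_dist_getVert hT p hp (i := i.toNat) (by omega)
    simp only [hm, if_true]
    refine ⟨?_, trivial⟩
    rw [hd]
    omega
  · intro v hv
    by_cases h : v ∈ p.support
    · simp only [h, if_true, sub_zero, Int.toNat_natCast]
      exact (hon v h).2
    · simp [h] at hv
  · intro v
    by_cases h : v ∈ p.support
    · have := (hon v h).1
      simp only [h, if_true]
      omega
    · obtain ⟨i, h1, h2, h3, h4⟩ := hoff v h
      simp only [h, if_false]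
      omega
  · intro u v
    by_cases hu : u ∈ p.support
    · by_cases hv : v ∈ p.support
      · simp only [hu, hv, if_true]
        constructor
        · intro h
          have := tree_adj_dist hT a h
          left
          refine ⟨trivial, trivial, ?_⟩
          omega
        · rintro (⟨-, -, h⟩ | ⟨-, h⟩)
          · obtain ⟨u1, u2⟩ := hon u hu
            obtain ⟨v1, v2⟩ := hon v hv
            rcases h with h | h
            · have h5 : G.dist a u = G.dist a v + 1 := by omega
              rw [← u2, ← v2, h5]
              exact (p.adj_getVert_succ (i := G.dist a v) (by omega)).symm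
            · have h5 : G.dist a v = G.dist a u + 1 := by omega
              rw [← u2, ← v2, h5]
              exact p.adj_getVert_succ (i := G.dist a u) (by omega)
          · exact absurd h (by norm_num)
      · simp only [hu, hv, if_true, if_false]
        obtain ⟨u1, u2⟩ := hon u hu
        constructor
        · intro h
          right
          rw [← u2] at h
          have := off_dist hT hp hv u1 h
          omega
        · rintro (⟨-, h, -⟩ | ⟨h, -⟩)
          · omega
          · have := hoffadj v hv (G.dist a u) u1 (by omega)
            rwa [u2] at this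
    · by_cases hv : v ∈ p.support
      · simp only [hu, hv, if_true, if_false]
        obtain ⟨v1, v2⟩ := hon v hv
        constructor
        · intro h
          right
          have h' := h.symm
          rw [← v2] at h'
          have := off_dist hT hp hu v1 h'
          omega
        · rintro (⟨h, -, -⟩ | ⟨h, -⟩)
          · omega
          · have := hoffadj u hu (G.dist a v) v1 (by omega)
            rw [v2] at this
            exact this.symm
      · simp only [hu, hv, if_false]
        constructor
        · intro h
          exfalso
          obtain ⟨i, h1, h2, h3, h4⟩ := hoff u hu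
          obtain ⟨k, k1, k2, k3, k4⟩ := hoff v hv
          have hdi := tree_dist_getVert hT p hp (i := i) (by omega)
          have hdk := tree_dist_getVert hT p hp (i := k) (by omega)
          rcases tree_adj_dist hT a h with h5 | h5
          · have := tree_parent_unique hT a h.symm h3 (by omega) (by omega)
            exact hv (this ▸ p.getVert_mem_support _)
          · have := tree_parent_unique hT a h k3 (by omega) (by omega)
            exact hu (this ▸ p.getVert_mem_support _)
        · rintro (⟨h, -, -⟩ | ⟨-, h⟩) <;> omega

end coord

end MP939afb
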