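import Pool.Agent.Lib.MP_939afb_co.Core

/-!
Graphs that are a disjoint union of two cliques, or complete bipartite: minimum rank at
most two.
-/

namespace MP939afb

open Matrix

variable {V : Type*} [Fintype V]

lemma mr_le_two_of_parity (H : SimpleGraph V) (κ : V → ℤ) (k : ℤ)
    (h : ∀ u v, u ≠ v → (H.Adj u v ↔ (κ u + κ v + k) % 2 = 0)) : mr H ≤ 2 := by
  set f : ℤ → V → ℝ := fun ε v => if (κ v + ε) % 2 = 0 then 1 else 0 with hf
  have key : ∀ u v, (vecMulVec (f 0) (f k) + vecMulVec (f 1) (f (k + 1)) : Matrix V V ℝ) u v =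
      if (κ u + κ v + k) % 2 = 0 then 1 else 0 := by
    intro u v
    rw [Matrix.add_apply]
    simp only [vecMulVec_apply, hf]
    by_cases h1 : κ u % 2 = 0 <;> by_cases h2 : (κ v + k) % 2 = 0
    · have k1 : (κ u + 0) % 2 = 0 := by omega
      have k2 : ¬ (κ u + 1) % 2 = 0 := by omega
      have k5 : (κ u + κ v + k) % 2 = 0 := by omega
      rw [if_pos k1, if_pos h2, if_neg k2, if_pos k5]
      ring
    · have k1 : (κ u + 0) % 2 = 0 := by omega
      have k2 : ¬ (κ u + 1) % 2 = 0 := by omega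
      have k5 : ¬ (κ u + κ v + k) % 2 = 0 := by omega
      rw [if_pos k1, if_neg h2, if_neg k2, if_neg k5]
      ring
    · have k1 : ¬ (κ u + 0) % 2 = 0 := by omega
      have k2 : (κ u + 1) % 2 = 0 := by omega
      have k3 : ¬ (κ v + (k + 1)) % 2 = 0 := by omega
      have k5 : ¬ (κ u + κ v + k) % 2 = 0 := by omega
      rw [if_neg k1, if_pos h2, if_pos k2, if_neg k3, if_neg k5]
      ring
    · have k1 : ¬ (κ u + 0) % 2 = 0 := by omega
      have k2 : (κ u + 1) % 2 = 0 := by omega
      have k3 : (κ v + (k + 1)) % 2 = 0 := by omega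
      have k5 : (κ u + κ v + k) % 2 = 0 := by omega
      rw [if_neg k1, if_neg h2, if_pos k2, if_pos k3, if_pos k5]
      ring
  have hS : MatS H (vecMulVec (f 0) (f k) + vecMulVec (f 1) (f (k + 1))) := by
    refine ⟨?_, ?_⟩
    · ext u v
      rw [Matrix.transpose_apply, key, key, add_comm (κ u)]
    · intro u v huv
      rw [key, h u v huv]
      by_cases h1 : (κ u + κ v + k) % 2 = 0 <;> simp [h1]
  refine mr_le hS (le_trans (rank_add_le _ _) ?_)
  have h1 := Matrix.rank_vecMulVec_le (f 0) (f k)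
  have h2 := Matrix.rank_vecMulVec_le (f 1) (f (k + 1))
  omega

end MP939afb
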