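import Pool.Agent.Lib.MP_939afb_co.Cat3
import Pool.Agent.Lib.MP_939afb_co.Two

/-!
Minimum ranks of all powers of a caterpillar.
-/

namespace MP939afb

open Matrix

variable {V : Type*} {G : SimpleGraph V}

namespace Coord

variable {D : ℤ} (c : Coord G D)

lemma d_le (u v : V) : c.d u v ≤ D := by
  have ru := c.rng u
  have rv := c.rng v
  have h : |c.pos u - c.pos v| ≤ D - c.ht u - c.ht v := abs_le.2 (by omega)
  unfold d
  omega

lemma dist_eq (hD : 1 ≤ D) {u v : V} (huv : u ≠ v) : (G.dist u v : ℤ) = c.d u v := by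
  have hu := c.ht01 u
  have hv := c.ht01 v
  have h0 : 0 ≤ c.d u v := by
    have := abs_nonneg (c.pos u - c.pos v)
    unfold d
    omega
  have hpar : (c.pos u + c.ht u + c.pos v + c.ht v + c.d u v) % 2 = 0 := by
    unfold d
    rcases abs_cases (c.pos u - c.pos v) with ⟨h, -⟩ | ⟨h, -⟩ <;> rw [h] <;> omega
  obtain ⟨p, hp⟩ := c.exists_walk hD (c.d u v).toNat u v (Or.inr (by omega)) (by omega)
  have h1 := SimpleGraph.dist_le p
  have hr : G.Reachable u v := ⟨p⟩
  obtain ⟨q, hq⟩ := hr.exists_walk_length_eq_dist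
  have h2 := (c.walk_le q).1.resolve_left huv
  omega

include c in
lemma diam_eq [Fintype V] (hD : 1 ≤ D) (hconn : G.Connected) : (G.diam : ℤ) = D := by
  have : Nonempty V := hconn.nonempty
  obtain ⟨u, v, huv⟩ := G.exists_dist_eq_diam
  have hne : G.ediam ≠ ⊤ := SimpleGraph.connected_iff_ediam_ne_top.1 hconn
  obtain ⟨a0, b0⟩ := c.hs 0 le_rfl (by omega)
  obtain ⟨a1, b1⟩ := c.hs D (by omega) le_rfl
  have hne' : c.s 0 ≠ c.s D := by
    intro h
    rw [h] at a0
    omega
  have h1 := SimpleGraph.dist_le_diam hne (u := c.s 0) (v := c.s D)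
  have h2 := c.dist_eq hD hne'
  have h3 : c.d (c.s 0) (c.s D) = D := by
    unfold d
    rw [a0, b0, a1, b1]
    have : |0 - D| = D := by
      rw [abs_sub_comm, sub_zero]
      exact abs_of_nonneg (by omega)
    omega
  have h4 : (G.diam : ℤ) ≤ D := by
    rw [← huv]
    by_cases h : u = v
    · subst h
      rw [SimpleGraph.dist_self]
      omega
    · rw [c.dist_eq hD h]
      exact c.d_le u v
  omega

include c in
lemma mr_le_two [Fintype V] {j : ℕ} (hD : 1 ≤ D) (hj : D ≤ j + 1) : mr (power G j) ≤ 2 := by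
  refine mr_le_two_of_parity _ (fun v => c.pos v + c.ht v) j ?_
  intro u v huv
  rw [c.power_adj hD]
  have h0 : c.d u v ≤ D := c.d_le u v
  have hpar : (c.pos u + c.ht u + c.pos v + c.ht v + c.d u v) % 2 = 0 := by
    have hu := c.ht01 u
    have hv := c.ht01 v
    unfold d
    rcases abs_cases (c.pos u - c.pos v) with ⟨h, -⟩ | ⟨h, -⟩ <;> rw [h] <;> omega
  constructor
  · rintro ⟨-, -, h⟩
    omega
  · intro h
    exact ⟨huv, by omega, by omega⟩

include c in
lemma mr_odd_le' [Fintype V] {m : ℕ} (hm : 1 ≤ m) (hD : 2 * (m : ℤ) + 1 ≤ D) :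
    (mr (power G (2 * m + 1)) : ℤ) ≤ 2 * ((D + 1 - 2 * m) / 2) := by
  have h0 := c.mr_odd_le_class hm hD 0 (Or.inl rfl)
  have h1 := c.mr_odd_le_class hm hD 1 (Or.inr rfl)
  have hc : ((Finset.Icc (m : ℤ) (D - m)).filter fun t => t % 2 = 0).card +
      ((Finset.Icc (m : ℤ) (D - m)).filter fun t => t % 2 = 1).card =
      (Finset.Icc (m : ℤ) (D - m)).card := by
    rw [← Finset.card_filter_add_card_filter_not (s := Finset.Icc (m : ℤ) (D - m))
      (fun t => t % 2 = 0)]
    congr 2
    apply Finset.filter_congr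
    intro t _
    omega
  rw [Int.card_Icc] at hc
  omega

include c in
lemma powerMonotone [Fintype V] (hD : 3 ≤ D) : PowerMonotone G := by
  intro j hj
  by_cases h1 : D ≤ j + 2
  · have h2 := c.mr_le_two (j := j + 1) (by omega) (by push_cast; omega)
    have h3 := c.two_le_mr hj hD
    omega
  · have hlow := c.le_mr_power hj (by omega)
    rcases Nat.even_or_odd' j with ⟨m, rfl | rfl⟩
    · have := c.mr_odd_le (m := m) (by omega) (by push_cast at h1; omega)
      push_cast at hlow
      omega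
    · have := c.mr_even_le (m := m + 1) (by omega) (by push_cast at h1 ⊢; omega)
      rw [show 2 * m + 1 + 1 = 2 * (m + 1) by ring]
      push_cast at hlow this
      omega

end Coord

/-- a caterpillar that is not a star has diameter at least three and coordinates -/
lemma caterpillar_coord [Fintype V] (hG : IsCaterpillar G)
    (hstar : ¬ ∃ x : V, ∀ v : V, v ≠ x → G.Adj x v) :
    ∃ D : ℤ, 3 ≤ D ∧ Nonempty (Coord G D) := by
  obtain ⟨hT, a, b, p, hp, hdom⟩ := hG
  obtain ⟨a, b, p, hd, hmax⟩ := exists_max_dom (G := G) ⟨a, b, p, hp, hdom⟩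
  obtain ⟨c⟩ := exists_coord hT hd hmax
  refine ⟨p.length, ?_, ⟨c⟩⟩
  by_contra hlt
  push Not at hlt
  apply hstar
  by_cases h0 : p.length = 0
  · refine ⟨c.s 0, fun v hv => ?_⟩
    exfalso
    have := c.rng v
    have := c.ht01 v
    apply hv
    rw [← c.spine v (by omega)]
    congr 1
    omega
  · obtain ⟨h1, h2⟩ := c.hs 1 (by omega) (by omega)
    refine ⟨c.s 1, fun v hv => ?_⟩
    rw [c.adj]
    have hr := c.rng v
    have ht := c.ht01 v
    rcases ht with ht | ht
    · left
      have : c.pos v ≠ 1 := by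
        intro h
        apply hv
        rw [← c.spine v ht, h]
      exact ⟨h2, ht, by omega⟩
    · right
      omega

theorem caterpillar_main [Fintype V] (hG : IsCaterpillar G)
    (hstar : ¬ ∃ x : V, ∀ v : V, v ≠ x → G.Adj x v) :
    PowerMonotone G ∧ 3 ≤ G.diam ∧
    (∀ j : ℕ, Even j → 2 ≤ j → j < G.diam → mr (power G j) = G.diam + 1 - j) ∧
    (∀ j : ℕ, Odd j → 3 ≤ j → j < G.diam →
      G.diam + 1 - j ≤ mr (power G j) ∧ mr (power G j) ≤ G.diam + 2 - j ∧
      (Even G.diam → mr (power G j) = G.diam + 1 - j)) ∧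
    (∀ j : ℕ, 1 ≤ j → G.diam ≤ j + 1 → mr (power G j) = 2) := by
  obtain ⟨D, hD, ⟨c⟩⟩ := caterpillar_coord hG hstar
  have hdiam := c.diam_eq (by omega) hG.1.connected
  refine ⟨c.powerMonotone hD, by omega, ?_, ?_, ?_⟩
  · intro j hj h2 hlt
    obtain ⟨m, rfl⟩ := hj
    have h3 := c.mr_even_le (m := m) (by omega) (by omega)
    have h4 := c.le_mr_power (j := m + m) (by omega) (by omega)
    rw [show 2 * m = m + m by ring] at h3
    push_cast at h3 h4
    omega
  · intro j hj h3 hlt
    obtain ⟨m, rfl⟩ := hj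
    have h5 := c.mr_odd_le' (m := m) (by omega) (by omega)
    have h6 := c.le_mr_power (j := 2 * m + 1) (by omega) (by omega)
    push_cast at h5 h6
    refine ⟨by omega, by omega, ?_⟩
    rintro ⟨k, hk⟩
    omega
  · intro j hj hlt
    have h7 := c.mr_le_two (j := j) (by omega) (by omega)
    have h8 := c.two_le_mr hj hD
    omega

end MP939afb
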