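import Pool.Agent.Lib.MP_939afb_co.Cat4

/-!
Stars among caterpillars.
-/

namespace MP939afb

open Matrix

variable {V : Type*} {G : SimpleGraph V}

namespace Coord

variable {D : ℤ} (c : Coord G D)

include c in
lemma not_mono_two [Fintype V] (hD : D = 2) : ¬ PowerMonotone G := by
  classical
  intro h
  have h2 : mr (power G 3) ≤ mr (power G 2) := h 2 (by norm_num)
  obtain ⟨a0, b0⟩ := c.hs 0 (by omega) (by omega)
  obtain ⟨a1, b1⟩ := c.hs 1 (by omega) (by omega)
  obtain ⟨a2, b2⟩ := c.hs 2 (by omega) (by omega)
  have ne : ∀ x y : V, c.pos x ≠ c.pos y → x ≠ y := fun x y h hxy => h (by rw [hxy])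
  have hup : mr (power G 2) ≤ 1 := by
    have hS : MatS (power G 2) (vecMulVec (fun v => if v = c.s 1 then (0 : ℝ) else 1)
        (fun v => if v = c.s 1 then (0 : ℝ) else 1)) := by
      refine ⟨?_, ?_⟩
      · ext u v
        rw [Matrix.transpose_apply, vecMulVec_apply, vecMulVec_apply, mul_comm]
      · intro u v huv
        rw [vecMulVec_apply, c.power_adj (by omega)]
        have key : ∀ w, w = c.s 1 ∨ (w ≠ c.s 1 ∧ (c.pos w + c.ht w = 0 ∨
            c.pos w + c.ht w = 2)) := by
          intro w
          by_cases hw : w = c.s 1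
          · exact Or.inl hw
          · right
            refine ⟨hw, ?_⟩
            have hr := c.rng w
            rcases c.ht01 w with ht | ht
            · have : c.pos w ≠ 1 := by
                intro h1
                apply hw
                rw [← c.spine w ht, h1]
              omega
            · omega
        have hle : c.d u v ≤ 2 := by
          have := c.d_le u v
          omega
        rcases key u with hu | ⟨hu, hu2⟩ <;> rcases key v with hv | ⟨hv, hv2⟩
        · exact absurd (hu.trans hv.symm) huv
        · rw [if_pos hu, zero_mul]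
          subst hu
          constructor
          · intro h3; exact absurd rfl h3
          · rintro ⟨-, -, h3⟩
            exfalso
            push_cast at h3
            omega
        · rw [if_pos hv, mul_zero]
          subst hv
          constructor
          · intro h3; exact absurd rfl h3
          · rintro ⟨-, -, h3⟩
            exfalso
            push_cast at h3
            omega
        · rw [if_neg hu, if_neg hv]
          constructor
          · intro _
            refine ⟨huv, by push_cast; omega, by push_cast; omega⟩
          · intro _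
            norm_num
    exact mr_le hS (Matrix.rank_vecMulVec_le _ _)
  have hlow : 2 ≤ mr (power G 3) := by
    have h := card_le_mr (power G 3) (ι := Fin 2) ![c.s 0, c.s 1] ![c.s 1, c.s 2]
      (fun i => (i : ℕ)) ?_ ?_
    · simpa using h
    · intro i
      rw [c.power_adj (by omega)]
      fin_cases i
      · refine ⟨ne _ _ ?_, ?_, ?_⟩
        · simp [a0, a1]
        · simp [d, a0, b0, a1, b1]
        · simp [a0, b0, a1, b1]
      · refine ⟨ne _ _ ?_, ?_, ?_⟩
        · simp [a1, a2]
        · simp [d, a1, b1, a2, b2]
        · simp [a1, b1, a2, b2]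
    · intro i i' hne hw
      rw [c.power_adj (by omega)]
      fin_cases i <;> fin_cases i'
      · exact absurd rfl hne
      · refine ⟨ne _ _ ?_, ?_⟩
        · simp [a0, a2]
        · rintro ⟨-, -, h⟩
          simp [a0, b0, a2, b2] at h
      · simp at hw
      · exact absurd rfl hne
  omega

include c in
lemma not_mono_one [Fintype V] (hD : D = 1) : ¬ PowerMonotone G := by
  intro h
  have h2 : mr (power G 3) ≤ mr (power G 2) := h 2 (by norm_num)
  obtain ⟨a0, b0⟩ := c.hs 0 (by omega) (by omega)
  obtain ⟨a1, b1⟩ := c.hs 1 (by omega) (by omega)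
  have ne : ∀ x y : V, c.pos x ≠ c.pos y → x ≠ y := fun x y h hxy => h (by rw [hxy])
  have hup : mr (power G 2) ≤ 0 := by
    have hS : MatS (power G 2) (0 : Matrix V V ℝ) := by
      refine ⟨Matrix.isSymm_zero, ?_⟩
      intro u v huv
      rw [c.power_adj (by omega)]
      constructor
      · intro h3
        exact absurd rfl h3
      · rintro ⟨-, -, h3⟩
        exfalso
        push_cast at h3
        have hu := c.rng u
        have hv := c.rng v
        have hu' := c.ht01 u
        have hv' := c.ht01 v
        have hu0 : c.ht u = 0 := by omega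
        have hv0 : c.ht v = 0 := by omega
        apply huv
        rw [← c.spine u hu0, ← c.spine v hv0]
        congr 1
        omega
    exact mr_le hS (by rw [Matrix.rank_zero])
  have hlow : 1 ≤ mr (power G 3) := by
    have h := card_le_mr (power G 3) (ι := Fin 1) ![c.s 0] ![c.s 1] (fun i => (i : ℕ)) ?_ ?_
    · simpa using h
    · intro i
      rw [c.power_adj (by omega)]
      fin_cases i
      refine ⟨ne _ _ ?_, ?_, ?_⟩
      · simp [a0, a1]
      · simp [d, a0, b0, a1, b1]
      · simp [a0, b0, a1, b1]
    · intro i i' hne hw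
      exact absurd (Subsingleton.elim i i') hne
  omega

include c in
lemma not_star (hD : 3 ≤ D) : ¬ ∃ x : V, ∀ v : V, v ≠ x → G.Adj x v := by
  rintro ⟨x, hx⟩
  obtain ⟨a0, b0⟩ := c.hs 0 (by omega) (by omega)
  obtain ⟨a1, b1⟩ := c.hs 1 (by omega) (by omega)
  obtain ⟨a2, b2⟩ := c.hs 2 (by omega) (by omega)
  obtain ⟨a3, b3⟩ := c.hs 3 (by omega) (by omega)
  have h0 : c.s 0 = x ∨ G.Adj x (c.s 0) := by
    by_cases h : c.s 0 = x
    · exact Or.inl h
    · exact Or.inr (hx _ h)
  have h3 : c.s 3 = x ∨ G.Adj x (c.s 3) := by
    by_cases h : c.s 3 = x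
    · exact Or.inl h
    · exact Or.inr (hx _ h)
  have hr := c.rng x
  have ht := c.ht01 x
  rcases h0 with h0 | h0
  · rcases h3 with h3 | h3
    · rw [h0] at a0
      rw [h3] at a3
      omega
    · have := (c.adj _ _).1 h3
      rw [← h0] at this
      omega
  · have h0' := (c.adj _ _).1 h0
    rcases h3 with h3 | h3
    · rw [← h3] at h0'
      omega
    · have h3' := (c.adj _ _).1 h3
      omega

end Coord

theorem caterpillar_iff [Fintype V] [Nontrivial V] (hG : IsCaterpillar G) :
    PowerMonotone G ↔ ¬ ∃ x : V, ∀ v : V, v ≠ x → G.Adj x v := by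
  constructor
  · intro hm hstar
    obtain ⟨hT, a, b, p, hp, hdom⟩ := hG
    obtain ⟨a, b, p, hd, hmax⟩ := exists_max_dom (G := G) ⟨a, b, p, hp, hdom⟩
    obtain ⟨c⟩ := exists_coord hT hd hmax
    have h3 : ¬ 3 ≤ (p.length : ℤ) := fun h => c.not_star h hstar
    have h0 : p.length ≠ 0 := by
      intro h
      obtain ⟨u, v, huv⟩ := exists_pair_ne V
      have hu := c.rng u
      have hv := c.rng v
      have hu' := c.ht01 u
      have hv' := c.ht01 v
      apply huv
      rw [← c.spine u (by omega), ← c.spine v (by omega)]
      congr 1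
      omega
    have h12 : (p.length : ℤ) = 1 ∨ (p.length : ℤ) = 2 := by omega
    rcases h12 with h | h
    · exact c.not_mono_one h hm
    · exact c.not_mono_two h hm
  · intro h
    exact (caterpillar_main hG h).1

end MP939afb
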