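import Mathlib

/-!
Minimum rank of graphs and (walk) powers: basic lemmas.
-/

namespace MP939afb

open Matrix

variable {V : Type*}

/-- `S(G)`: real symmetric matrices whose off-diagonal zero pattern is given by `G`
(the diagonal is free). -/
def MatS (G : SimpleGraph V) (A : Matrix V V ℝ) : Prop :=
  A.IsSymm ∧ ∀ u v : V, u ≠ v → (A u v ≠ 0 ↔ G.Adj u v)

/-- The minimum rank of `G`. -/
noncomputable def mr [Fintype V] (G : SimpleGraph V) : ℕ :=
  sInf {r : ℕ | ∃ A : Matrix V V ℝ, MatS G A ∧ A.rank = r}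

/-- The `j`-th power of `G`: distinct vertices are adjacent if there is a walk of length
exactly `j` between them. -/
def power (G : SimpleGraph V) (j : ℕ) : SimpleGraph V where
  Adj u v := u ≠ v ∧ ∃ p : G.Walk u v, p.length = j
  symm := by
    constructor
    rintro u v ⟨h, p, hp⟩
    exact ⟨h.symm, p.reverse, by simpa using hp⟩
  loopless := ⟨fun u h => h.1 rfl⟩

/-- `G` is power-monotone. -/
def PowerMonotone [Fintype V] (G : SimpleGraph V) : Prop :=
  ∀ j : ℕ, 1 ≤ j → mr (power G (j + 1)) ≤ mr (power G j)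

section basic

variable [Fintype V]

lemma mr_le {G : SimpleGraph V} {A : Matrix V V ℝ} (h : MatS G A) {r : ℕ} (hr : A.rank ≤ r) :
    mr G ≤ r :=
  le_trans (Nat.sInf_le ⟨A, h, rfl⟩) hr

omit [Fintype V] in
lemma exists_matS (G : SimpleGraph V) : ∃ A : Matrix V V ℝ, MatS G A := by
  classical
  refine ⟨fun u v => if G.Adj u v then 1 else 0, ?_, ?_⟩
  · ext u v
    simp only [Matrix.transpose_apply, G.adj_comm]
  · intro u v _
    by_cases h : G.Adj u v <;> simp [h]

lemma exists_mr (G : SimpleGraph V) : ∃ A : Matrix V V ℝ, MatS G A ∧ A.rank = mr G := by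
  have hne : {r : ℕ | ∃ A : Matrix V V ℝ, MatS G A ∧ A.rank = r}.Nonempty := by
    obtain ⟨A, hA⟩ := exists_matS G
    exact ⟨A.rank, A, hA, rfl⟩
  exact Nat.sInf_mem hne

lemma le_mr {G : SimpleGraph V} {r : ℕ} (h : ∀ A : Matrix V V ℝ, MatS G A → r ≤ A.rank) :
    r ≤ mr G := by
  obtain ⟨A, hA, hr⟩ := exists_mr G
  rw [← hr]
  exact h A hA

omit [Fintype V] in
lemma MatS.ne {G : SimpleGraph V} {A : Matrix V V ℝ} (h : MatS G A) {u v : V}
    (hadj : G.Adj u v) : A u v ≠ 0 :=
  (h.2 u v hadj.ne).2 hadj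

omit [Fintype V] in
lemma MatS.eq_zero {G : SimpleGraph V} {A : Matrix V V ℝ} (h : MatS G A) {u v : V}
    (hne : u ≠ v) (hadj : ¬ G.Adj u v) : A u v = 0 := by
  by_contra h0
  exact hadj ((h.2 u v hne).1 h0)

/-- Triangular submatrices bound the rank from below. -/
lemma card_le_rank {ι : Type*} [Fintype ι] (A : Matrix V V ℝ) (r c : ι → V) (w : ι → ℕ)
    (hd : ∀ i, A (r i) (c i) ≠ 0)
    (h0 : ∀ i i', i ≠ i' → w i ≤ w i' → A (r i) (c i') = 0) :
    Fintype.card ι ≤ A.rank := by
  classical
  have hle : (A.submatrix r c).rank ≤ A.rank := Matrix.rank_submatrix_le A r c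
  refine le_trans ?_ hle
  have hinj : Function.Injective (A.submatrix r c).mulVecLin := by
    rw [injective_iff_map_eq_zero]
    intro x hx
    by_contra hne
    have hS : (Finset.univ.filter fun i => x i ≠ 0).Nonempty := by
      obtain ⟨i, hi⟩ := Function.ne_iff.1 hne
      exact ⟨i, by simpa using hi⟩
    obtain ⟨i, hi, hmin⟩ := Finset.exists_min_image _ w hS
    have hi' : x i ≠ 0 := by simpa using hi
    have hrow := congrFun hx i
    simp only [Matrix.mulVecLin_apply, Matrix.mulVec, dotProduct, Matrix.submatrix_apply,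
      Pi.zero_apply] at hrow
    rw [Finset.sum_eq_single i] at hrow
    · exact (mul_ne_zero (hd i) hi') hrow
    · intro i' _ hii
      by_cases hx' : x i' = 0
      · rw [hx', mul_zero]
      · rw [h0 i i' (Ne.symm hii) (hmin i' (by simpa using hx')), zero_mul]
    · intro h
      exact absurd (Finset.mem_univ i) h
  have := LinearMap.finrank_range_of_inj hinj
  rw [Matrix.rank, this, Module.finrank_fintype_fun_eq_card]

/-- Lower bound for the minimum rank by a triangular pattern. -/
lemma card_le_mr {ι : Type*} [Fintype ι] (G : SimpleGraph V) (r c : ι → V) (w : ι → ℕ)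
    (hd : ∀ i, G.Adj (r i) (c i))
    (h0 : ∀ i i', i ≠ i' → w i ≤ w i' → r i ≠ c i' ∧ ¬ G.Adj (r i) (c i')) :
    Fintype.card ι ≤ mr G := by
  refine le_mr fun A hA => card_le_rank A r c w (fun i => hA.ne (hd i)) ?_
  intro i i' hne hw
  obtain ⟨h1, h2⟩ := h0 i i' hne hw
  exact hA.eq_zero h1 h2

lemma rank_add_le (A B : Matrix V V ℝ) : (A + B).rank ≤ A.rank + B.rank := by
  unfold Matrix.rank
  rw [Matrix.mulVecLin_add]
  refine le_trans (Submodule.finrank_mono (?_ : _ ≤ LinearMap.range A.mulVecLin ⊔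
    LinearMap.range B.mulVecLin)) ?_
  · rintro _ ⟨x, rfl⟩
    exact Submodule.add_mem_sup (LinearMap.mem_range_self _ x) (LinearMap.mem_range_self _ x)
  · exact Submodule.finrank_add_le_finrank_add_finrank _ _

lemma rank_sum_le {ι : Type*} (s : Finset ι) (F : ι → Matrix V V ℝ) (k : ℕ)
    (h : ∀ i ∈ s, (F i).rank ≤ k) : (∑ i ∈ s, F i).rank ≤ s.card * k := by
  classical
  induction s using Finset.induction_on with
  | empty => simp
  | insert a s ha ih =>
    rw [Finset.sum_insert ha, Finset.card_insert_of_notMem ha]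
    refine le_trans (rank_add_le _ _) ?_
    have h1 := h a (Finset.mem_insert_self a s)
    have h2 := ih fun i hi => h i (Finset.mem_insert_of_mem hi)
    nlinarith

end basic

end MP939afb
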