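import Pool.Agent.Lib.MP_939afb_co.Core

/-!
Bipartite graphs with an explicit distance function.
-/

namespace MP939afb

variable {V : Type*}

/-- `D` behaves like the distance of a connected bipartite graph `G`. -/
structure DD (G : SimpleGraph V) (D : V → V → ℕ) : Prop where
  self : ∀ u, D u u = 0
  adj_le : ∀ u w v, G.Adj u w → D u v ≤ D w v + 1
  adj_par : ∀ u w v, G.Adj u w → (D u v + D w v) % 2 = 1
  step : ∀ u v, u ≠ v → ∃ w, G.Adj u w ∧ D u v = D w v + 1

namespace DD

variable {G : SimpleGraph V} {D : V → V → ℕ} (h : DD G D)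

include h

lemma walk_le {u v : V} (p : G.Walk u v) :
    D u v ≤ p.length ∧ (D u v + p.length) % 2 = 0 := by
  induction p with
  | nil => rw [h.self]; simp
  | @cons u w v hadj p ih =>
    obtain ⟨h1, h2⟩ := ih
    have h3 := h.adj_le u w v hadj
    have h4 := h.adj_par u w v hadj
    rw [SimpleGraph.Walk.length_cons]
    constructor <;> omega

lemma exists_walk [Nontrivial V] : ∀ (j : ℕ) (u v : V), D u v ≤ j → (D u v + j) % 2 = 0 →
    ∃ p : G.Walk u v, p.length = j := by
  intro j
  induction j with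
  | zero =>
    intro u v h1 h2
    by_cases huv : u = v
    · subst huv
      exact ⟨SimpleGraph.Walk.nil, rfl⟩
    · obtain ⟨w, -, hw⟩ := h.step u v huv
      omega
  | succ j ih =>
    intro u v h1 h2
    by_cases huv : u = v
    · subst huv
      rw [h.self] at h1 h2
      obtain ⟨x, hx⟩ := exists_ne u
      obtain ⟨w, hw, -⟩ := h.step u x hx.symm
      have h3 := h.adj_par u w u hw
      have h4 := h.adj_le w u u hw.symm
      rw [h.self] at h3 h4
      obtain ⟨p, hp⟩ := ih w u (by omega) (by omega)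
      exact ⟨SimpleGraph.Walk.cons hw p, by simp [hp]⟩
    · obtain ⟨w, hw, hd⟩ := h.step u v huv
      obtain ⟨p, hp⟩ := ih w v (by omega) (by omega)
      exact ⟨SimpleGraph.Walk.cons hw p, by simp [hp]⟩

lemma power_adj [Nontrivial V] (j : ℕ) (u v : V) : (power G j).Adj u v ↔
    u ≠ v ∧ D u v ≤ j ∧ (D u v + j) % 2 = 0 := by
  constructor
  · rintro ⟨hne, p, hp⟩
    obtain ⟨h1, h2⟩ := h.walk_le p
    rw [hp] at h1 h2
    exact ⟨hne, h1, h2⟩
  · rintro ⟨hne, h1, h2⟩
    exact ⟨hne, h.exists_walk j u v h1 h2⟩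

lemma exists_walk' (u v : V) : ∃ p : G.Walk u v, p.length = D u v := by
  generalize hn : D u v = n
  induction n generalizing u with
  | zero =>
    by_cases huv : u = v
    · subst huv
      exact ⟨SimpleGraph.Walk.nil, rfl⟩
    · obtain ⟨w, -, hw⟩ := h.step u v huv
      omega
  | succ n ih =>
    have huv : u ≠ v := by
      rintro rfl
      rw [h.self] at hn
      omega
    obtain ⟨w, hw, hd⟩ := h.step u v huv
    obtain ⟨p, hp⟩ := ih w (by omega)
    exact ⟨SimpleGraph.Walk.cons hw p, by simp [hp]⟩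

lemma connected [Nonempty V] : G.Connected := by
  refine ⟨fun u v => ?_⟩
  obtain ⟨p, -⟩ := h.exists_walk' u v
  exact ⟨p⟩

lemma dist_eq (u v : V) : G.dist u v = D u v := by
  obtain ⟨p, hp⟩ := h.exists_walk' u v
  have h1 := SimpleGraph.dist_le p
  have hr : G.Reachable u v := ⟨p⟩
  obtain ⟨q, hq⟩ := hr.exists_walk_length_eq_dist
  have h2 := (h.walk_le q).1
  omega

lemma symm (u v : V) : D u v = D v u := by
  rw [← h.dist_eq, ← h.dist_eq, SimpleGraph.dist_comm]

lemma triangle [Nonempty V] (u v w : V) : D u w ≤ D u v + D v w := by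
  rw [← h.dist_eq, ← h.dist_eq, ← h.dist_eq]
  exact h.connected.dist_triangle

/-- parity of triangles -/
lemma par (u v w : V) : (D u v + D v w + D u w) % 2 = 0 := by
  obtain ⟨p, hp⟩ := h.exists_walk' u v
  obtain ⟨q, hq⟩ := h.exists_walk' v w
  have := (h.walk_le (p.append q)).2
  rw [SimpleGraph.Walk.length_append] at this
  omega

end DD

/-- A criterion for trees: every edge joins a vertex to its parent. -/
lemma isTree_of_parent [Finite V] {G : SimpleGraph V} (hconn : G.Connected) (root : V)
    (par : V → V) (hpar : ∀ v, v ≠ root → G.Adj v (par v))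
    (hadj : ∀ u v, G.Adj u v → (u ≠ root ∧ par u = v) ∨ (v ≠ root ∧ par v = u)) :
    G.IsTree := by
  classical
  rw [SimpleGraph.isTree_iff_connected_and_card]
  refine ⟨hconn, ?_⟩
  have h1 := hconn.card_vert_le_card_edgeSet_add_one
  have h2 : Nat.card G.edgeSet ≤ Nat.card {v : V // v ≠ root} := by
    refine Nat.card_le_card_of_surjective
      (fun v : {v : V // v ≠ root} => (⟨s(v.1, par v.1), (SimpleGraph.mem_edgeSet G).2 (hpar v.1 v.2)⟩ : G.edgeSet)) ?_
    rintro ⟨e, he⟩
    induction e using Sym2.ind with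
    | _ u v =>
      rw [SimpleGraph.mem_edgeSet] at he
      rcases hadj u v he with ⟨hu, hp⟩ | ⟨hv, hp⟩
      · refine ⟨⟨u, hu⟩, Subtype.ext ?_⟩
        change s(u, par u) = s(u, v)
        rw [hp]
      · refine ⟨⟨v, hv⟩, Subtype.ext ?_⟩
        change s(v, par v) = s(u, v)
        rw [hp]
        exact Sym2.eq_swap
  have h3 : Nat.card {v : V // v ≠ root} + 1 = Nat.card V := by
    have : Fintype V := Fintype.ofFinite V
    rw [Nat.card_eq_fintype_card, Nat.card_eq_fintype_card, Fintype.card_subtype_compl,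
      Fintype.card_subtype_eq]
    have : 0 < Fintype.card V := Fintype.card_pos_iff.2 ⟨root⟩
    omega
  omega

end MP939afb
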