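import Mathlib

/-!
MP_939afb_co: even steps (helper1).
-/

namespace MP939afb

open Finset Matrix

variable {V : Type*} [Fintype V]

/-- generic weights for bilinear forms -/
theorem generic_bilin (P : V → V → Prop) (A : Matrix V V ℝ) (N : V → V → Prop)
    (hP : ∀ u v, P u v → u ≠ v ∧ ∃ w z, N u w ∧ N v z ∧ A w z ≠ 0) :
    ∃ x : Matrix V V ℝ, (∀ u w, ¬ N u w → x u w = 0) ∧
      ∀ u v, P u v → (x * A * xᵀ) u v ≠ 0 := by
  classical
  set p : V → V → MvPolynomial (V × V) ℝ := fun u v =>
    ∑ w, ∑ z, if N u w ∧ N v z then
      MvPolynomial.C (A w z) * (MvPolynomial.X (u, w) * MvPolynomial.X (v, z)) else 0 with hp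
  have hne : ∀ u v, P u v → p u v ≠ 0 := by
    intro u v huv
    obtain ⟨hne, w, z, hw, hz, hA⟩ := hP u v huv
    intro h0
    have h1 : MvPolynomial.coeff (Finsupp.single (u, w) 1 + Finsupp.single (v, z) 1) (p u v) =
        A w z := by
      rw [hp]
      simp only
      rw [MvPolynomial.coeff_sum, Finset.sum_eq_single w]
      · rw [MvPolynomial.coeff_sum, Finset.sum_eq_single z]
        · rw [if_pos ⟨hw, hz⟩, MvPolynomial.coeff_C_mul]
          have : (MvPolynomial.X (u, w) * MvPolynomial.X (v, z) : MvPolynomial (V × V) ℝ) =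
              MvPolynomial.monomial (Finsupp.single (u, w) 1 + Finsupp.single (v, z) 1) 1 := by
            simp [MvPolynomial.X, MvPolynomial.monomial_mul]
          rw [this, MvPolynomial.coeff_monomial, if_pos rfl, mul_one]
        · intro z' _ hz'
          split_ifs with h
          · rw [MvPolynomial.coeff_C_mul]
            have : (MvPolynomial.X (u, w) * MvPolynomial.X (v, z') : MvPolynomial (V × V) ℝ) =
                MvPolynomial.monomial (Finsupp.single (u, w) 1 + Finsupp.single (v, z') 1) 1 := by
              simp [MvPolynomial.X, MvPolynomial.monomial_mul]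
            rw [this, MvPolynomial.coeff_monomial, if_neg, mul_zero]
            intro he
            have h2 := DFunLike.congr_fun he (v, z')
            simp [hne, Ne.symm hz'] at h2
          · simp
        · intro h
          exact absurd (Finset.mem_univ _) h
      · intro w' _ hw'
        rw [MvPolynomial.coeff_sum]
        apply Finset.sum_eq_zero
        intro z' _
        split_ifs with h
        · rw [MvPolynomial.coeff_C_mul]
          have : (MvPolynomial.X (u, w') * MvPolynomial.X (v, z') : MvPolynomial (V × V) ℝ) =
              MvPolynomial.monomial (Finsupp.single (u, w') 1 + Finsupp.single (v, z') 1) 1 := by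
            simp [MvPolynomial.X, MvPolynomial.monomial_mul]
          rw [this, MvPolynomial.coeff_monomial, if_neg, mul_zero]
          intro he
          have h2 := DFunLike.congr_fun he (u, w')
          simp [Ne.symm hne, Ne.symm hw'] at h2
        · simp
      · intro h
        exact absurd (Finset.mem_univ _) h
    rw [h0, MvPolynomial.coeff_zero] at h1
    exact hA h1.symm
  set q : MvPolynomial (V × V) ℝ := ∏ uv : V × V, if P uv.1 uv.2 then p uv.1 uv.2 else 1 with hq
  have hq0 : q ≠ 0 := by
    rw [hq, Finset.prod_ne_zero_iff]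
    intro uv _
    split_ifs with h
    · exact hne _ _ h
    · exact one_ne_zero
  obtain ⟨x, hx⟩ : ∃ x : V × V → ℝ, MvPolynomial.eval x q ≠ 0 := by
    by_contra hc
    push Not at hc
    exact hq0 (MvPolynomial.funext fun x => by rw [hc x, map_zero])
  refine ⟨Matrix.of (fun u w => if N u w then x (u, w) else 0), fun u w h => if_neg h, ?_⟩
  intro u v huv
  rw [hq, map_prod, Finset.prod_ne_zero_iff] at hx
  have h1 := hx (u, v) (Finset.mem_univ _)
  simp only [huv, if_true] at h1
  rw [hp] at h1
  simp only [map_sum] at h1
  have h2 : (Matrix.of (fun u w => if N u w then x (u, w) else 0) * A *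
      (Matrix.of (fun u w => if N u w then x (u, w) else 0))ᵀ) u v =
      ∑ w, ∑ z, (MvPolynomial.eval x) (if N u w ∧ N v z then
        MvPolynomial.C (A w z) * (MvPolynomial.X (u, w) * MvPolynomial.X (v, z)) else 0) := by
    rw [Matrix.mul_apply]
    simp only [Matrix.mul_apply, Matrix.transpose_apply, Finset.sum_mul, Matrix.of_apply]
    rw [Finset.sum_comm]
    apply Finset.sum_congr rfl
    intro w _
    apply Finset.sum_congr rfl
    intro z _
    by_cases h3 : N u w <;> by_cases h4 : N v z <;> simp [h3, h4]
    ring
  rw [h2]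
  exact h1

/-- generic weights for linear forms -/
theorem generic_lin (P : V → V → Prop) (A : Matrix V V ℝ) (N : V → V → Prop)
    (hP : ∀ u v, P u v → ∃ w, N w v ∧ A u w ≠ 0) :
    ∃ x : Matrix V V ℝ, (∀ w v, ¬ N w v → x w v = 0) ∧ ∀ u v, P u v → (A * x) u v ≠ 0 := by
  classical
  set p : V → V → MvPolynomial (V × V) ℝ := fun u v =>
    ∑ w, if N w v then MvPolynomial.C (A u w) * MvPolynomial.X (w, v) else 0 with hp
  have hne : ∀ u v, P u v → p u v ≠ 0 := by
    intro u v huv
    obtain ⟨w, hw, hA⟩ := hP u v huv
    intro h0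
    have h1 : MvPolynomial.coeff (Finsupp.single (w, v) 1) (p u v) = A u w := by
      rw [hp]
      simp only
      rw [MvPolynomial.coeff_sum, Finset.sum_eq_single w]
      · rw [if_pos hw, MvPolynomial.coeff_C_mul, MvPolynomial.coeff_X, if_pos rfl, mul_one]
      · intro w' _ hw'
        split_ifs with h
        · rw [MvPolynomial.coeff_C_mul, MvPolynomial.coeff_X, if_neg, mul_zero]
          intro he
          have h2 := DFunLike.congr_fun he (w', v)
          simp [Ne.symm hw'] at h2
        · simp
      · intro h
        exact absurd (Finset.mem_univ _) h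
    rw [h0, MvPolynomial.coeff_zero] at h1
    exact hA h1.symm
  set q : MvPolynomial (V × V) ℝ := ∏ uv : V × V, if P uv.1 uv.2 then p uv.1 uv.2 else 1 with hq
  have hq0 : q ≠ 0 := by
    rw [hq, Finset.prod_ne_zero_iff]
    intro uv _
    split_ifs with h
    · exact hne _ _ h
    · exact one_ne_zero
  obtain ⟨x, hx⟩ : ∃ x : V × V → ℝ, MvPolynomial.eval x q ≠ 0 := by
    by_contra hc
    push Not at hc
    exact hq0 (MvPolynomial.funext fun x => by rw [hc x, map_zero])
  refine ⟨Matrix.of (fun w v => if N w v then x (w, v) else 0), fun u w h => if_neg h, ?_⟩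
  intro u v huv
  rw [hq, map_prod, Finset.prod_ne_zero_iff] at hx
  have h1 := hx (u, v) (Finset.mem_univ _)
  simp only [huv, if_true] at h1
  rw [hp] at h1
  simp only [map_sum] at h1
  have h2 : (A * Matrix.of (fun w v => if N w v then x (w, v) else 0)) u v =
      ∑ w, (MvPolynomial.eval x) (if N w v then
        MvPolynomial.C (A u w) * MvPolynomial.X (w, v) else 0) := by
    rw [Matrix.mul_apply]
    apply Finset.sum_congr rfl
    intro w _
    by_cases h3 : N w v <;> simp [h3]
  rw [h2]
  exact h1

end MP939afb
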