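import Pool.Agent.Lib.MP_939afb_co.Core
import Pool.Agent.Lib.MP_939afb_co.Even1

/-!
MP_939afb_co: even steps (helper1), second part.
-/

namespace MP939afb

open Finset Matrix

variable {V : Type*} [Fintype V]

/-- a walk of positive length can be made longer by an even number -/
theorem walk_add {V : Type*} {G : SimpleGraph V} {u v w : V} (h : G.Adj u w) (p : G.Walk u v)
    (k : ℕ) : ∃ q : G.Walk u v, q.length = p.length + 2 * k := by
  induction k with
  | zero => exact ⟨p, by simp⟩
  | succ k ih =>
    obtain ⟨q, hq⟩ := ih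
    refine ⟨SimpleGraph.Walk.cons h (SimpleGraph.Walk.cons h.symm q), ?_⟩
    simp only [SimpleGraph.Walk.length_cons, hq]
    ring

/-- two steps give all even lengths -/
theorem walk_even {V : Type*} {G : SimpleGraph V} {u v w : V} (h1 : G.Adj u w) (h2 : G.Adj w v)
    {j : ℕ} (hj : Even j) (h0 : 0 < j) : ∃ q : G.Walk u v, q.length = j := by
  obtain ⟨k, hk⟩ := hj
  obtain ⟨q, hq⟩ := walk_add h1 (SimpleGraph.Walk.cons h1 (SimpleGraph.Walk.cons h2
    SimpleGraph.Walk.nil)) (k - 1)
  refine ⟨q, ?_⟩
  rw [hq]
  simp only [SimpleGraph.Walk.length_cons, SimpleGraph.Walk.length_nil]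
  omega

/-- first step of a walk -/
theorem walk_first {V : Type*} {G : SimpleGraph V} {u v : V} {j : ℕ} (p : G.Walk u v)
    (hp : p.length = j + 1) : ∃ w, G.Adj u w ∧ ∃ q : G.Walk w v, q.length = j := by
  cases p with
  | nil => simp at hp
  | cons h q =>
    refine ⟨_, h, q, ?_⟩
    simp only [SimpleGraph.Walk.length_cons] at hp
    omega

/-- last step of a walk -/
theorem walk_last {V : Type*} {G : SimpleGraph V} {u v : V} {j : ℕ} (p : G.Walk u v)
    (hp : p.length = j + 1) : ∃ w, G.Adj w v ∧ ∃ q : G.Walk u w, q.length = j := by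
  obtain ⟨w, hw, q, hq⟩ := walk_first p.reverse (by rw [SimpleGraph.Walk.length_reverse]; exact hp)
  exact ⟨w, hw.symm, q.reverse, by rw [SimpleGraph.Walk.length_reverse]; exact hq⟩

/-- even powers: two more steps do not increase the minimum rank if no two pendant vertices have
a common neighbour -/
theorem step_two (G : SimpleGraph V)
    (hpend : ∀ u v w, u ≠ v → G.Adj u w → G.Adj v w → ∃ w', w' ≠ w ∧ (G.Adj u w' ∨ G.Adj v w'))
    {j : ℕ} (hj : Even j) (h0 : 0 < j) : mr (power G (j + 2)) ≤ mr (power G j) := by
  classical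
  obtain ⟨A, ⟨hs, hA⟩, hr⟩ := exists_mr (power G j)
  have hP : ∀ u v, (power G (j + 2)).Adj u v →
      u ≠ v ∧ ∃ w z, G.Adj u w ∧ G.Adj v z ∧ A w z ≠ 0 := by
    rintro u v ⟨hne, p, hp⟩
    refine ⟨hne, ?_⟩
    obtain ⟨w, hw, p1, hp1⟩ := walk_first (j := j + 1) p hp
    obtain ⟨z, hz, p2, hp2⟩ := walk_last (j := j) p1 hp1
    by_cases hwz : w = z
    · subst hwz
      obtain ⟨w', hw', h | h⟩ := hpend u v w hne hw hz.symm
      · refine ⟨w', w, h, hz.symm, (hA w' w hw').2 ⟨hw', ?_⟩⟩
        exact walk_even h.symm hw hj h0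
      · refine ⟨w, w', hw, h, (hA w w' (Ne.symm hw')).2 ⟨Ne.symm hw', ?_⟩⟩
        exact walk_even hz h hj h0
    · exact ⟨w, z, hw, hz.symm, (hA w z hwz).2 ⟨hwz, p2, hp2⟩⟩
  obtain ⟨x, hx0, hx⟩ := generic_bilin (fun u v => (power G (j + 2)).Adj u v) A G.Adj hP
  have hmem : MatS (power G (j + 2)) (x * A * xᵀ) := by
    refine ⟨?_, ?_⟩
    · rw [Matrix.IsSymm, Matrix.transpose_mul, Matrix.transpose_mul, Matrix.transpose_transpose,
        hs.eq, Matrix.mul_assoc]
    · intro u v hne
      constructor
      · intro h
        by_contra hno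
        apply h
        rw [Matrix.mul_apply]
        apply Finset.sum_eq_zero
        intro z _
        rw [Matrix.mul_apply, Matrix.transpose_apply, Finset.sum_mul]
        apply Finset.sum_eq_zero
        intro w _
        by_contra hc
        have h1 : x u w ≠ 0 := by
          intro h1
          apply hc
          rw [h1]
          ring
        have h2 : A w z ≠ 0 := by
          intro h1
          apply hc
          rw [h1]
          ring
        have h3 : x v z ≠ 0 := by
          intro h1
          apply hc
          rw [h1]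
          ring
        have h4 : G.Adj u w := by
          by_contra h4
          exact h1 (hx0 u w h4)
        have h5 : G.Adj v z := by
          by_contra h5
          exact h3 (hx0 v z h5)
        apply hno
        refine ⟨hne, ?_⟩
        by_cases hwz : w = z
        · subst hwz
          exact walk_even h4 h5.symm (by
            obtain ⟨k, hk⟩ := hj
            exact ⟨k + 1, by omega⟩) (by omega)
        · obtain ⟨-, p, hp⟩ := (hA w z hwz).1 h2
          refine ⟨SimpleGraph.Walk.cons h4 (p.concat h5.symm), ?_⟩
          simp only [SimpleGraph.Walk.length_cons, SimpleGraph.Walk.length_concat, hp]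
      · intro h
        exact hx u v h
  calc mr (power G (j + 2)) ≤ (x * A * xᵀ).rank := mr_le hmem le_rfl
    _ ≤ (x * A).rank := Matrix.rank_mul_le_left _ _
    _ ≤ A.rank := Matrix.rank_mul_le_right _ _
    _ = mr (power G j) := hr

/-- even walks keep the colour -/
theorem walk_color {V : Type*} {G : SimpleGraph V} {c : V → Bool}
    (hc : ∀ u v, G.Adj u v → c u ≠ c v) {u v : V} (p : G.Walk u v) :
    (Even p.length → c u = c v) ∧ (¬ Even p.length → c u ≠ c v) := by
  induction p with
  | nil => simp
  | cons h q ih =>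
    have h1 := hc _ _ h
    simp only [SimpleGraph.Walk.length_cons, Nat.even_add_one, not_not]
    constructor
    · intro he
      have := ih.2 he
      revert h1 this
      generalize c _ = x
      generalize c _ = y
      generalize c _ = z
      cases x <;> cases y <;> cases z <;> simp
    · intro he
      rw [← ih.1 he]
      exact h1

/-- the two colour classes: the rank of a block diagonal matrix -/
theorem rank_blocks (A : Matrix V V ℝ) (c : V → Bool) (hA : ∀ u v, c u ≠ c v → A u v = 0) :
    (Matrix.of (fun u v => if c u = true then A u v else 0)).rank +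
      (Matrix.of (fun u v => if c u = false then A u v else 0)).rank ≤ A.rank := by
  set A1 : Matrix V V ℝ := Matrix.of (fun u v => if c u = true then A u v else 0) with h1
  set A0 : Matrix V V ℝ := Matrix.of (fun u v => if c u = false then A u v else 0) with h0
  have key : ∀ (b : Bool) (x : V → ℝ),
      (Matrix.of (fun u v => if c u = b then A u v else 0)) *ᵥ x =
        A *ᵥ (fun v => if c v = b then x v else 0) := by
    intro b x
    funext u
    simp only [Matrix.mulVec, dotProduct, Matrix.of_apply]
    apply Finset.sum_congr rfl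
    intro v _
    by_cases h2 : c u = b <;> by_cases h3 : c v = b
    · simp [h2, h3]
    · rw [hA u v (by rw [h2]; exact Ne.symm h3)]
      simp
    · rw [hA u v (by rw [h3]; exact h2)]
      simp
    · simp [h2, h3]
  have hle1 : LinearMap.range A1.mulVecLin ≤ LinearMap.range A.mulVecLin := by
    rintro _ ⟨x, rfl⟩
    exact ⟨_, (key true x).symm⟩
  have hle0 : LinearMap.range A0.mulVecLin ≤ LinearMap.range A.mulVecLin := by
    rintro _ ⟨x, rfl⟩
    exact ⟨_, (key false x).symm⟩
  have hdis : Disjoint (LinearMap.range A1.mulVecLin) (LinearMap.range A0.mulVecLin) := by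
    rw [Submodule.disjoint_def]
    rintro _ ⟨x, rfl⟩ ⟨y, hy⟩
    funext u
    cases hu : c u
    · simp [Matrix.mulVec, dotProduct, h1, hu]
    · rw [← hy]
      simp [Matrix.mulVec, dotProduct, h0, hu]
  unfold Matrix.rank
  have h2 := Submodule.finrank_sup_add_finrank_inf_eq (LinearMap.range A1.mulVecLin)
    (LinearMap.range A0.mulVecLin)
  rw [hdis.eq_bot, finrank_bot, add_zero] at h2
  rw [← h2]
  exact Submodule.finrank_mono (sup_le hle1 hle0)

/-- bipartite graphs without pendant vertices: from even to odd powers -/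
theorem step_one (G : SimpleGraph V) (c : V → Bool) (hc : ∀ u v, G.Adj u v → c u ≠ c v)
    (hpend : ∀ v w, G.Adj v w → ∃ w', w' ≠ w ∧ G.Adj v w')
    {j : ℕ} (hj : Even j) (h0 : 0 < j) : mr (power G (j + 1)) ≤ mr (power G j) := by
  classical
  obtain ⟨A, ⟨hs, hA⟩, hr⟩ := exists_mr (power G j)
  have hA0 : ∀ u v, c u ≠ c v → A u v = 0 := by
    intro u v huv
    by_contra h
    have hne : u ≠ v := fun h => huv (by rw [h])
    obtain ⟨-, p, hp⟩ := (hA u v hne).1 h
    exact huv ((walk_color hc p).1 (by rw [hp]; exact hj))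
  have hblk := rank_blocks A c hA0
  -- the colour with the smaller block
  obtain ⟨b, hb⟩ : ∃ b : Bool,
      2 * (Matrix.of (fun u v => if c u = b then A u v else 0)).rank ≤ A.rank := by
    rcases le_total (Matrix.of (fun u v => if c u = true then A u v else 0)).rank
      (Matrix.of (fun u v => if c u = false then A u v else 0)).rank with h | h
    · exact ⟨true, by omega⟩
    · exact ⟨false, by omega⟩
  set B : Matrix V V ℝ := Matrix.of (fun u v => if c u = b then A u v else 0) with hB
  have hBu : ∀ u v, c u = b → B u v = A u v := by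
    intro u v h
    rw [hB, Matrix.of_apply, if_pos h]
  have hBn : ∀ u v, c u ≠ b → B u v = 0 := by
    intro u v h
    rw [hB, Matrix.of_apply, if_neg h]
  have hP : ∀ u v, (c u = b ∧ c v ≠ b ∧ (power G (j + 1)).Adj u v) →
      ∃ w, G.Adj w v ∧ B u w ≠ 0 := by
    rintro u v ⟨hu, hv, hne, p, hp⟩
    obtain ⟨w, hw, q, hq⟩ := walk_last p hp
    by_cases huw : u = w
    · subst huw
      obtain ⟨w', hw', h⟩ := hpend v u hw.symm
      refine ⟨w', h.symm, ?_⟩
      rw [hBu u w' hu]
      exact (hA u w' (Ne.symm hw')).2 ⟨Ne.symm hw', walk_even hw h hj h0⟩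
    · refine ⟨w, hw, ?_⟩
      rw [hBu u w hu]
      exact (hA u w huw).2 ⟨huw, q, hq⟩
  obtain ⟨x, hx0, hx⟩ := generic_lin
    (fun u v => c u = b ∧ c v ≠ b ∧ (power G (j + 1)).Adj u v) B G.Adj hP
  -- the support of `B * x`
  have hsup : ∀ u v, (B * x) u v ≠ 0 → c u = b ∧ c v ≠ b ∧ (u ≠ v → ∃ p : G.Walk u v,
      p.length = j + 1) := by
    intro u v h
    rw [Matrix.mul_apply] at h
    obtain ⟨w, -, hw⟩ := Finset.exists_ne_zero_of_sum_ne_zero h
    have h1 : B u w ≠ 0 := left_ne_zero_of_mul hw
    have h2 : x w v ≠ 0 := right_ne_zero_of_mul hw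
    have hu : c u = b := by
      by_contra hu
      exact h1 (hBn u w hu)
    rw [hBu u w hu] at h1
    have h3 : G.Adj w v := by
      by_contra h3
      exact h2 (hx0 w v h3)
    have hcw : c u = c w := by
      by_contra hcw
      exact h1 (hA0 u w hcw)
    have hv : c v ≠ b := by
      intro hv
      exact hc w v h3 (by rw [hv, ← hcw, hu])
    refine ⟨hu, hv, fun hne => ?_⟩
    by_cases huw : u = w
    · subst huw
      obtain ⟨k, hk⟩ := hj
      obtain ⟨q, hq⟩ := walk_add h3 (SimpleGraph.Walk.cons h3 SimpleGraph.Walk.nil) k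
      refine ⟨q, ?_⟩
      rw [hq]
      simp only [SimpleGraph.Walk.length_cons, SimpleGraph.Walk.length_nil]
      omega
    · obtain ⟨-, p, hp⟩ := (hA u w huw).1 h1
      exact ⟨p.concat h3, by rw [SimpleGraph.Walk.length_concat, hp]⟩
  have hmem : MatS (power G (j + 1)) (B * x + (B * x)ᵀ) := by
    refine ⟨?_, ?_⟩
    · rw [Matrix.IsSymm, Matrix.transpose_add, Matrix.transpose_transpose, add_comm]
    · intro u v hne
      rw [Matrix.add_apply, Matrix.transpose_apply]
      constructor
      · intro h
        refine ⟨hne, ?_⟩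
        by_cases h1 : (B * x) u v = 0
        · rw [h1, zero_add] at h
          obtain ⟨p, hp⟩ := (hsup v u h).2.2 hne.symm
          exact ⟨p.reverse, by rw [SimpleGraph.Walk.length_reverse, hp]⟩
        · exact (hsup u v h1).2.2 hne
      · intro hadj
        obtain ⟨-, p, hp⟩ := hadj
        have hcol : c u ≠ c v := (walk_color hc p).2 (by
          rw [hp, Nat.even_add_one, not_not]
          exact hj)
        by_cases hu : c u = b
        · have hv : c v ≠ b := fun h => hcol (by rw [hu, h])
          have h1 : (B * x) v u = 0 := by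
            by_contra h
            exact hv (hsup v u h).1
          rw [h1, add_zero]
          exact hx u v ⟨hu, hv, hne, p, hp⟩
        · have hv : c v = b := by
            revert hcol hu
            generalize c u = y
            generalize c v = z
            cases y <;> cases z <;> cases b <;> simp
          have h1 : (B * x) u v = 0 := by
            by_contra h
            exact hu (hsup u v h).1
          rw [h1, zero_add]
          exact hx v u ⟨hv, hu, hne.symm, p.reverse, by
            rw [SimpleGraph.Walk.length_reverse, hp]⟩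
  calc mr (power G (j + 1)) ≤ (B * x + (B * x)ᵀ).rank := mr_le hmem le_rfl
    _ ≤ (B * x).rank + (B * x)ᵀ.rank := rank_add_le _ _
    _ = 2 * (B * x).rank := by rw [Matrix.rank_transpose, two_mul]
    _ ≤ 2 * B.rank := Nat.mul_le_mul_left 2 (Matrix.rank_mul_le_left _ _)
    _ ≤ A.rank := hb
    _ = mr (power G j) := hr

end MP939afb
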