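import Pool.Agent.Lib.MP_939afb_co.Spider3

/-!
A tree of diameter six that is not power-monotone, and the general family.
-/

namespace MP939afb

open Matrix

/-- A tree of diameter six with `mr (T^2) < mr (T^3)`. -/
theorem st6 : ∃ (V : Type) (_ : Fintype V) (T : SimpleGraph V), T.IsTree ∧ T.diam = 6 ∧
    mr (power T 2) < mr (power T 3) := by
  refine ⟨SV 1 1, inferInstance, SV.T 1 1, SV.isTree 1 1, ?_, ?_⟩
  · have hdd := SV.dd 1 1
    have hT := SV.isTree 1 1
    have hne : Nonempty (SV 1 1) := hT.connected.nonempty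
    have hfin : (SV.T 1 1).ediam ≠ ⊤ := SimpleGraph.connected_iff_ediam_ne_top.1 hT.connected
    obtain ⟨u, v, huv⟩ := (SV.T 1 1).exists_dist_eq_diam
    obtain ⟨x, hx⟩ := SV.exists_of_ok (m := 1) (k := 1) (c := 0) (l := 2) (h := 4)
      (by unfold Ok; omega)
    obtain ⟨y, hy⟩ := SV.exists_of_ok (m := 1) (k := 1) (c := 0) (l := 3) (h := 4)
      (by unfold Ok; omega)
    have h1 := SimpleGraph.dist_le_diam hfin (u := x) (v := y)
    rw [hdd.dist_eq] at h1 huv
    have h2 : SV.D x y = 6 := by
      unfold SV.D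
      split_ifs <;> omega
    have h3 : SV.D u v ≤ 6 := by
      have hu := u.ok
      have hv := v.ok
      unfold Ok at hu hv
      unfold SV.D
      split_ifs <;> omega
    omega
  · have h1 := SV.upper (m := 1) (k := 1) le_rfl le_rfl
    have h2 := SV.lower (m := 1) (k := 1) le_rfl le_rfl
    norm_num at h1 h2
    omega

/-- No even step is safe, and the defect is unbounded. -/
theorem even_steps_fail (m k : ℕ) (hm : 1 ≤ m) (hk : 1 ≤ k) :
    ∃ (V : Type) (_ : Fintype V) (T : SimpleGraph V), T.IsTree ∧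
      mr (power T (2 * m)) ≤ 5 * k ∧ 6 * k ≤ mr (power T (2 * m + 1)) :=
  ⟨SV m k, inferInstance, SV.T m k, SV.isTree m k, SV.upper hm hk, SV.lower hm hk⟩

end MP939afb
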