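import Pool.Agent.Lib.MP_939afb_co.Core

/-!
# Trees of diameter 3, 4, 5 are power-monotone
-/

namespace MP939afb.Small

open Matrix

variable {V : Type*} {G : SimpleGraph V}

/-! ## Distances in trees -/

lemma step (hT : G.IsTree) (r : V) {u v : V} (h : G.Adj u v) :
    G.dist r u = G.dist r v + 1 ∨ G.dist r v = G.dist r u + 1 :=
  hT.dist_eq_dist_add_one_of_adj r h

lemma walk_parity (hT : G.IsTree) (r : V) {u v : V} (p : G.Walk u v) :
    Even (G.dist r u + p.length + G.dist r v) := by
  induction p with
  | nil => simp only [SimpleGraph.Walk.length_nil]; exact ⟨_, by ring⟩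
  | cons h p ih =>
    rw [SimpleGraph.Walk.length_cons]
    rcases step hT r h with h1 | h1
    · rw [Nat.even_iff] at ih ⊢
      omega
    · rw [Nat.even_iff] at ih ⊢
      omega

lemma dist_parity (hT : G.IsTree) (r u v : V) :
    Even (G.dist r u + G.dist u v + G.dist r v) := by
  obtain ⟨p, hp⟩ := hT.connected.exists_walk_length_eq_dist u v
  rw [← hp]
  exact walk_parity hT r p

lemma walk_iff [Nontrivial V] (hT : G.IsTree) (u v : V) (j : ℕ) :
    (∃ p : G.Walk u v, p.length = j) ↔ G.dist u v ≤ j ∧ Even (G.dist u v + j) := by
  constructor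
  · rintro ⟨p, hp⟩
    refine ⟨hp ▸ SimpleGraph.dist_le p, ?_⟩
    have h := walk_parity hT u p
    rw [SimpleGraph.dist_self, hp] at h
    rw [Nat.even_iff] at h ⊢
    omega
  · rintro ⟨h1, h2⟩
    obtain ⟨k, hk⟩ : ∃ k, j = G.dist u v + 2 * k := by
      refine ⟨(j - G.dist u v) / 2, ?_⟩
      rw [Nat.even_iff] at h2
      omega
    have key : ∀ k : ℕ, ∃ p : G.Walk u v, p.length = G.dist u v + 2 * k := by
      intro k
      induction k with
      | zero =>
        obtain ⟨p, hp⟩ := hT.connected.exists_walk_length_eq_dist u v
        exact ⟨p, by rw [hp]; rfl⟩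
      | succ k ih =>
        obtain ⟨p, hp⟩ := ih
        obtain ⟨w, hw⟩ := hT.connected.preconnected.exists_adj_of_nontrivial v
        refine ⟨(p.concat hw).concat hw.symm, ?_⟩
        rw [SimpleGraph.Walk.length_concat, SimpleGraph.Walk.length_concat, hp]
        ring
    rw [hk]
    exact key k

lemma power_adj [Nontrivial V] (hT : G.IsTree) (j : ℕ) (u v : V) :
    (power G j).Adj u v ↔ u ≠ v ∧ G.dist u v ≤ j ∧ Even (G.dist u v + j) := by
  unfold power
  simp only
  rw [walk_iff hT]

/-- the neighbour closer to the root is unique -/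
lemma parent_unique (hT : G.IsTree) (r : V) {w u v : V} (hu : G.Adj w u) (hv : G.Adj w v)
    (hu' : G.dist r u < G.dist r w) (hv' : G.dist r v < G.dist r w) : u = v := by
  obtain ⟨p, hp⟩ := hT.connected.exists_walk_length_eq_dist r u
  obtain ⟨q, hq⟩ := hT.connected.exists_walk_length_eq_dist r v
  have h1 : (p.concat hu.symm).IsPath := by
    apply SimpleGraph.Walk.isPath_of_length_eq_dist
    rw [SimpleGraph.Walk.length_concat, hp]
    rcases step hT r hu with h | h <;> omega
  have h2 : (q.concat hv.symm).IsPath := by
    apply SimpleGraph.Walk.isPath_of_length_eq_dist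
    rw [SimpleGraph.Walk.length_concat, hq]
    rcases step hT r hv with h | h <;> omega
  obtain ⟨h3, -⟩ := SimpleGraph.Walk.concat_inj ((hT.existsUnique_path r w).unique h1 h2)
  exact h3

lemma exists_closer (hT : G.IsTree) {r v : V} {n : ℕ} (h : G.dist r v = n + 1) :
    ∃ w, G.Adj w v ∧ G.dist r w = n := by
  obtain ⟨p, hp⟩ := hT.connected.exists_walk_length_eq_dist v r
  rw [SimpleGraph.dist_comm, h] at hp
  cases p with
  | nil => simp at hp
  | @cons _ w _ hvw p =>
    refine ⟨w, hvw.symm, ?_⟩
    rw [SimpleGraph.Walk.length_cons] at hp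
    have h1 : G.dist w r ≤ p.length := SimpleGraph.dist_le p
    rw [SimpleGraph.dist_comm] at h1
    rcases step hT r hvw with h2 | h2 <;> omega

/-- an edge separates the tree -/
lemma bridge (hT : G.IsTree) {a b u v : V} (hab : G.Adj a b) (hu : G.dist u a < G.dist u b)
    (hv : ¬ G.dist v a < G.dist v b) (huv : G.Adj u v) : u = a ∧ v = b := by
  have c1 := step hT u hab
  have c2 := step hT v hab
  have c3 := step hT a huv
  have c4 := step hT b huv
  rw [SimpleGraph.dist_comm (u := a) (v := u), SimpleGraph.dist_comm (u := a) (v := v)] at c3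
  rw [SimpleGraph.dist_comm (u := b) (v := u), SimpleGraph.dist_comm (u := b) (v := v)] at c4
  obtain ⟨n, hn⟩ : ∃ n, G.dist u a = n := ⟨_, rfl⟩
  have h1 : G.dist u b = n + 1 := by omega
  have h2 : G.dist v b = n := by omega
  have h3 : G.dist v a = n + 1 := by omega
  rcases Nat.eq_zero_or_pos n with h0 | h0
  · rw [h0] at hn h2
    exact ⟨hT.connected.dist_eq_zero_iff.mp hn, hT.connected.dist_eq_zero_iff.mp h2⟩
  · exfalso
    obtain ⟨m, hm⟩ : ∃ m, n = m + 1 := ⟨n - 1, by omega⟩
    rw [SimpleGraph.dist_comm, hm] at hn
    obtain ⟨w, hw1, hw2⟩ := exists_closer hT hn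
    have h4 : G.dist b w ≤ G.dist b a + G.dist a w := hT.connected.dist_triangle
    have h5 : G.dist b a = 1 := SimpleGraph.dist_eq_one_iff_adj.mpr hab.symm
    have h6 : w = v := by
      apply parent_unique hT b hw1.symm huv
      · rw [SimpleGraph.dist_comm (u := b) (v := u)]; omega
      · rw [SimpleGraph.dist_comm (u := b) (v := u), SimpleGraph.dist_comm (u := b) (v := v)]
        omega
    rw [h6, SimpleGraph.dist_comm] at hw2
    omega

lemma cross_dist (hT : G.IsTree) {a b : V} (hab : G.Adj a b) {u v : V}
    (hu : G.dist u a < G.dist u b) (hv : ¬ G.dist v a < G.dist v b) :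
    G.dist u v = G.dist u a + 1 + G.dist b v := by
  apply le_antisymm
  · have h1 : G.dist u v ≤ G.dist u a + G.dist a v := hT.connected.dist_triangle
    have h2 : G.dist a v ≤ G.dist a b + G.dist b v := hT.connected.dist_triangle
    have h3 : G.dist a b = 1 := SimpleGraph.dist_eq_one_iff_adj.mpr hab
    omega
  · obtain ⟨p, hp⟩ := hT.connected.exists_walk_length_eq_dist u v
    rw [← hp]
    clear hp
    revert hu hv
    induction p with
    | nil => intro h1 h2; exact absurd h1 h2
    | @cons u w v h p ih =>
      intro hu hv
      rw [SimpleGraph.Walk.length_cons]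
      by_cases hw : G.dist w a < G.dist w b
      · have h1 := ih hw hv
        have h2 : G.dist u a ≤ G.dist u w + G.dist w a := hT.connected.dist_triangle
        have h3 : G.dist u w = 1 := SimpleGraph.dist_eq_one_iff_adj.mpr h
        omega
      · obtain ⟨h1, h2⟩ := bridge hT hab hu hw h
        subst h1 h2
        have h3 : G.dist w v ≤ p.length := SimpleGraph.dist_le p
        rw [SimpleGraph.dist_self]
        omega

/-! ## From `T` to `T^2` -/

lemma first_step [Fintype V] [Nontrivial V] (hT : G.IsTree) :
    mr (power G 2) ≤ mr (power G 1) := by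
  classical
  obtain ⟨r⟩ := hT.connected.nonempty
  -- the vertices with a child
  let C : Finset V := Finset.univ.filter (fun w => ∃ u, G.Adj w u ∧ G.dist r u = G.dist r w + 1)
  have hC : ∀ w : {w // w ∈ C}, ∃ u, G.Adj w.1 u ∧ G.dist r u = G.dist r w.1 + 1 := by
    intro w
    exact (Finset.mem_filter.mp w.2).2
  choose ch hch1 hch2 using hC
  have low : C.card ≤ mr (power G 1) := by
    have h := card_le_mr (power G 1) (fun w : {w // w ∈ C} => w.1) ch (fun w => G.dist r w.1)
      (fun w => by
        rw [power_adj hT]
        have h1 : G.dist w.1 (ch w) = 1 := SimpleGraph.dist_eq_one_iff_adj.mpr (hch1 w)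
        exact ⟨(hch1 w).ne, by omega, by rw [h1]; decide⟩)
      (fun w w' hne hle => by
        refine ⟨?_, ?_⟩
        · intro h
          have := hch2 w'
          rw [← h] at this
          omega
        · intro h
          rw [power_adj hT] at h
          obtain ⟨h1, h2, h3⟩ := h
          have h4 : G.dist w.1 (ch w') = 1 := by
            have := hT.connected.pos_dist_of_ne h1
            omega
          have h5 : G.Adj w.1 (ch w') := SimpleGraph.dist_eq_one_iff_adj.mp h4
          have h6 := hch2 w'
          have h7 : w.1 = w'.1 := by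
            apply parent_unique hT r h5.symm (hch1 w').symm
            · rcases step hT r h5 with h | h <;> omega
            · omega
          exact hne (Subtype.ext h7))
    rwa [Fintype.card_coe] at h
  refine le_trans ?_ low
  -- the matrix
  let M : Matrix V V ℝ := ∑ w ∈ C, vecMulVec (fun u => if G.Adj w u then (1 : ℝ) else 0)
    (fun u => if G.Adj w u then (1 : ℝ) else 0)
  have hM : ∀ u v, M u v = ∑ w ∈ C, (if G.Adj w u ∧ G.Adj w v then (1 : ℝ) else 0) := by
    intro u v
    simp only [M, Matrix.sum_apply, vecMulVec_apply]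
    apply Finset.sum_congr rfl
    intro w _
    by_cases h1 : G.Adj w u <;> by_cases h2 : G.Adj w v <;> simp [h1, h2]
  have hrank : M.rank ≤ C.card * 1 := by
    apply rank_sum_le
    intro w _
    exact rank_vecMulVec_le _ _
  refine mr_le (A := M) ⟨?_, ?_⟩ (by omega)
  · ext u v
    rw [transpose_apply, hM, hM]
    apply Finset.sum_congr rfl
    intro w _
    simp only [and_comm]
  · intro u v huv
    rw [hM, power_adj hT]
    constructor
    · intro hne
      have hex : ∃ w ∈ C, G.Adj w u ∧ G.Adj w v := by
        by_contra hcon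
        push Not at hcon
        apply hne
        apply Finset.sum_eq_zero
        intro w hw
        rw [if_neg]
        rintro ⟨h1, h2⟩
        exact hcon w hw h1 h2
      obtain ⟨w, _, h1, h2⟩ := hex
      have h3 : G.dist u w = 1 := SimpleGraph.dist_eq_one_iff_adj.mpr h1.symm
      have h4 : G.dist w v = 1 := SimpleGraph.dist_eq_one_iff_adj.mpr h2
      have h5 : G.dist u v ≤ G.dist u w + G.dist w v := hT.connected.dist_triangle
      have h6 := dist_parity hT w u v
      rw [SimpleGraph.dist_comm (u := w) (v := u), h3, h4] at h6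
      refine ⟨huv, by omega, ?_⟩
      rw [Nat.even_iff] at h6 ⊢
      omega
    · rintro ⟨_, h1, h2⟩
      have h3 : G.dist u v = 2 := by
        have := hT.connected.pos_dist_of_ne huv
        rw [Nat.even_iff] at h2
        omega
      obtain ⟨w, hw1, hw2⟩ := exists_closer hT h3
      have hwu : G.Adj w u := (SimpleGraph.dist_eq_one_iff_adj.mp hw2).symm
      have hwC : w ∈ C := by
        refine Finset.mem_filter.mpr ⟨Finset.mem_univ _, ?_⟩
        rcases step hT r hwu with h4 | h4
        · rcases step hT r hw1 with h5 | h5
          · exfalso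
            apply huv
            apply parent_unique hT r hwu hw1 <;> omega
          · exact ⟨v, hw1, h5⟩
        · exact ⟨u, hwu, h4⟩
      apply ne_of_gt
      apply Finset.sum_pos'
      · intro i _
        split_ifs <;> norm_num
      · exact ⟨w, hwC, by rw [if_pos ⟨hwu, hw1⟩]; norm_num⟩

/-! ## High powers -/

lemma parity_iff (hT : G.IsTree) (r u v : V) (j : ℕ) :
    Even (G.dist u v + j) ↔ Even (G.dist r u + G.dist r v + j) := by
  have h := dist_parity hT r u v
  rw [Nat.even_iff] at h
  rw [Nat.even_iff, Nat.even_iff]
  omega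

lemma mr_high [Fintype V] [Nontrivial V] (hT : G.IsTree) (j : ℕ)
    (hj : ∀ u v, G.dist u v ≤ j + 1) : mr (power G j) ≤ 2 := by
  classical
  obtain ⟨r⟩ := hT.connected.nonempty
  let L : V → ℝ := fun v => if Even (G.dist r v) then 1 else 0
  let R : V → ℝ := fun v => if Even (G.dist r v) then 0 else 1
  have hadj : ∀ u v, (power G j).Adj u v ↔ u ≠ v ∧ Even (G.dist r u + G.dist r v + j) := by
    intro u v
    rw [power_adj hT, ← parity_iff hT]
    constructor
    · rintro ⟨h1, _, h3⟩
      exact ⟨h1, h3⟩
    · rintro ⟨h1, h3⟩
      refine ⟨h1, ?_, h3⟩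
      have := hj u v
      rw [Nat.even_iff] at h3
      omega
  rcases Nat.even_or_odd j with he | ho
  · refine mr_le (A := vecMulVec L L + vecMulVec R R) ⟨?_, ?_⟩ ?_
    · ext u v
      simp only [transpose_apply, Matrix.add_apply, vecMulVec_apply]
      ring
    · intro u v huv
      rw [hadj]
      simp only [Matrix.add_apply, vecMulVec_apply, L, R]
      by_cases h1 : Even (G.dist r u) <;> by_cases h2 : Even (G.dist r v)
      · simp [h1, h2, huv, Nat.even_add, he]
      · simp [h1, h2, huv, Nat.even_add, he]
      · simp [h1, h2, huv, Nat.even_add, he]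
      · simp [h1, h2, huv, Nat.even_add, he]
    · refine le_trans (rank_add_le _ _) ?_
      have h1 := rank_vecMulVec_le L L
      have h2 := rank_vecMulVec_le R R
      omega
  · have ho' : ¬ Even j := Nat.not_even_iff_odd.mpr ho
    refine mr_le (A := vecMulVec L R + vecMulVec R L) ⟨?_, ?_⟩ ?_
    · ext u v
      simp only [transpose_apply, Matrix.add_apply, vecMulVec_apply]
      ring
    · intro u v huv
      rw [hadj]
      simp only [Matrix.add_apply, vecMulVec_apply, L, R]
      by_cases h1 : Even (G.dist r u) <;> by_cases h2 : Even (G.dist r v)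
      · simp [h1, h2, huv, Nat.even_add, ho']
      · simp [h1, h2, huv, Nat.even_add, ho']
      · simp [h1, h2, huv, Nat.even_add, ho']
      · simp [h1, h2, huv, Nat.even_add, ho']
    · refine le_trans (rank_add_le _ _) ?_
      have h1 := rank_vecMulVec_le L R
      have h2 := rank_vecMulVec_le R L
      omega

/-! ## Geodesics -/

/-- `x 0, x 1, ..., x n` is a geodesic -/
def Geo (G : SimpleGraph V) (n : ℕ) (x : ℕ → V) : Prop :=
  ∀ i j, i ≤ j → j ≤ n → G.dist (x i) (x j) = j - i

lemma exists_geo (hT : G.IsTree) : ∀ (n : ℕ) (u v : V), n ≤ G.dist u v →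
    ∃ x : ℕ → V, x 0 = u ∧ Geo G n x := by
  intro n u v h
  have key : ∀ n : ℕ, ∀ v : V, G.dist u v = n → ∃ x : ℕ → V, x 0 = u ∧ x n = v ∧
      (∀ i, i < n → G.Adj (x i) (x (i + 1))) ∧ ∀ i, i ≤ n → G.dist u (x i) = i := by
    intro n
    induction n with
    | zero =>
      intro v hv
      have : u = v := hT.connected.dist_eq_zero_iff.mp hv
      refine ⟨fun _ => u, rfl, this, fun i hi => absurd hi (Nat.not_lt_zero i), ?_⟩
      intro i hi
      simp only [SimpleGraph.dist_self]
      omega
    | succ n ih =>
      intro v hv
      obtain ⟨w, hw1, hw2⟩ := exists_closer hT hv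
      obtain ⟨x, h1, h2, h3, h4⟩ := ih w hw2
      refine ⟨fun i => if i = n + 1 then v else x i, ?_, ?_, ?_, ?_⟩
      · simp [h1]
      · simp
      · intro i hi
        by_cases hin : i = n
        · subst hin
          simp [h2, hw1]
        · have h5 : i ≠ n + 1 := by omega
          have h6 : i + 1 ≠ n + 1 := by omega
          simp only [h5, h6, if_false]
          exact h3 i (by omega)
      · intro i hi
        by_cases hin : i = n + 1
        · subst hin
          simp [hv]
        · simp only [hin, if_false]
          exact h4 i (by omega)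
  obtain ⟨x, h1, _, h3, h4⟩ := key (G.dist u v) v rfl
  refine ⟨x, h1, ?_⟩
  intro i j hij hj
  have hup : ∀ k, i + k ≤ G.dist u v → G.dist (x i) (x (i + k)) ≤ k := by
    intro k
    induction k with
    | zero => intro _; simp
    | succ k ih =>
      intro hk
      have a1 := ih (by omega)
      have a2 : G.dist (x i) (x (i + (k + 1))) ≤ G.dist (x i) (x (i + k)) +
        G.dist (x (i + k)) (x (i + (k + 1))) := hT.connected.dist_triangle
      have a3 : G.dist (x (i + k)) (x (i + (k + 1))) = 1 :=
        SimpleGraph.dist_eq_one_iff_adj.mpr (h3 (i + k) (by omega))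
      omega
  have h5 := hup (j - i) (by omega)
  have h6 : i + (j - i) = j := by omega
  rw [h6] at h5
  have h7 : G.dist u (x j) ≤ G.dist u (x i) + G.dist (x i) (x j) := hT.connected.dist_triangle
  rw [h4 j (by omega), h4 i (by omega)] at h7
  omega

lemma two_le_mr [Fintype V] [Nontrivial V] (hT : G.IsTree) (x : ℕ → V) (hx : Geo G 3 x)
    (j : ℕ) (hj : 1 ≤ j) : 2 ≤ mr (power G j) := by
  have d01 := hx 0 1 (by omega) (by omega)
  have d12 := hx 1 2 (by omega) (by omega)
  have d02 := hx 0 2 (by omega) (by omega)
  have d13 := hx 1 3 (by omega) (by omega)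
  have d03 := hx 0 3 (by omega) (by omega)
  have hne : ∀ a b : V, G.dist a b ≠ 0 → a ≠ b := by
    intro a b h hab
    rw [hab, SimpleGraph.dist_self] at h
    exact h rfl
  rcases Nat.even_or_odd j with he | ho
  · have h := card_le_mr (power G j) (fun i : Fin 2 => x i) (fun i : Fin 2 => x (i + 2))
      (fun i => i) ?_ ?_
    · simpa using h
    · intro i
      fin_cases i
      · rw [power_adj hT]
        simp only [Nat.reduceAdd]
        rw [d02]
        refine ⟨hne _ _ (by rw [d02]; decide), ?_, ?_⟩
        · obtain ⟨k, hk⟩ := he; omega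
        · rw [Nat.even_iff] at he ⊢; omega
      · rw [power_adj hT]
        simp only [Nat.reduceAdd]
        rw [d13]
        refine ⟨hne _ _ (by rw [d13]; decide), ?_, ?_⟩
        · obtain ⟨k, hk⟩ := he; omega
        · rw [Nat.even_iff] at he ⊢; omega
    · intro i i' hii hle
      fin_cases i <;> fin_cases i'
      · exact absurd rfl hii
      · simp only [Nat.reduceAdd]
        refine ⟨hne _ _ (by rw [d03]; decide), ?_⟩
        rw [power_adj hT, d03]
        rintro ⟨_, _, h⟩
        rw [Nat.even_iff] at he h
        omega
      · simp at hle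
      · exact absurd rfl hii
  · have h := card_le_mr (power G j) (fun i : Fin 2 => x i) (fun i : Fin 2 => x (i + 1))
      (fun i => i) ?_ ?_
    · simpa using h
    · intro i
      fin_cases i
      · rw [power_adj hT]
        simp only [Nat.reduceAdd, zero_add]
        rw [d01]
        refine ⟨hne _ _ (by rw [d01]; decide), by omega, ?_⟩
        rw [Nat.odd_iff] at ho
        rw [Nat.even_iff]; omega
      · rw [power_adj hT]
        simp only [Nat.reduceAdd]
        rw [d12]
        refine ⟨hne _ _ (by rw [d12]; decide), by omega, ?_⟩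
        rw [Nat.odd_iff] at ho
        rw [Nat.even_iff]; omega
    · intro i i' hii hle
      fin_cases i <;> fin_cases i'
      · exact absurd rfl hii
      · simp only [Nat.reduceAdd]
        refine ⟨hne _ _ (by rw [d02]; decide), ?_⟩
        rw [power_adj hT, d02]
        rintro ⟨_, _, h⟩
        rw [Nat.odd_iff] at ho
        rw [Nat.even_iff] at h
        omega
      · simp at hle
      · exact absurd rfl hii

/-- the second power of a tree of diameter at least 5 -/
lemma four_le_mr [Fintype V] [Nontrivial V] (hT : G.IsTree) (x : ℕ → V) (hx : Geo G 5 x) :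
    4 ≤ mr (power G 2) := by
  have d02 := hx 0 2 (by omega) (by omega)
  have d24 := hx 2 4 (by omega) (by omega)
  have d13 := hx 1 3 (by omega) (by omega)
  have d35 := hx 3 5 (by omega) (by omega)
  have d04 := hx 0 4 (by omega) (by omega)
  have d03 := hx 0 3 (by omega) (by omega)
  have d05 := hx 0 5 (by omega) (by omega)
  have d23 := hx 2 3 (by omega) (by omega)
  have d25 := hx 2 5 (by omega) (by omega)
  have d15 := hx 1 5 (by omega) (by omega)
  have hne : ∀ a b : V, G.dist a b ≠ 0 → a ≠ b := by
    intro a b h hab
    rw [hab, SimpleGraph.dist_self] at h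
    exact h rfl
  have hadj : ∀ a b : V, G.dist a b = 2 → (power G 2).Adj a b := by
    intro a b h
    rw [power_adj hT, h]
    exact ⟨hne a b (by omega), le_refl _, by decide⟩
  have hnad : ∀ a b : V, G.dist a b = 1 ∨ 3 ≤ G.dist a b → a ≠ b ∧ ¬ (power G 2).Adj a b := by
    intro a b h
    refine ⟨hne a b (by omega), ?_⟩
    rw [power_adj hT]
    rintro ⟨_, h2, h3⟩
    rw [Nat.even_iff] at h3
    omega
  have h := card_le_mr (power G 2) (![x 0, x 2, x 1, x 3] : Fin 4 → V)
    (![x 2, x 4, x 3, x 5] : Fin 4 → V) (fun i => i) ?_ ?_
  · simpa using h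
  · intro i
    fin_cases i
    · exact hadj _ _ d02
    · exact hadj _ _ d24
    · exact hadj _ _ d13
    · exact hadj _ _ d35
  · intro i i' hii hle
    fin_cases i <;> fin_cases i'
    all_goals first
      | exact absurd rfl hii
      | exact absurd hle (by decide)
      | skip
    · exact hnad (x 0) (x 4) (by omega)
    · exact hnad (x 0) (x 3) (by omega)
    · exact hnad (x 0) (x 5) (by omega)
    · exact hnad (x 2) (x 3) (by omega)
    · exact hnad (x 2) (x 5) (by omega)
    · exact hnad (x 1) (x 5) (by omega)

/-- the third power of a tree of diameter 5 -/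
lemma mr_three [Fintype V] [Nontrivial V] (hT : G.IsTree) (x : ℕ → V) (hx : Geo G 5 x)
    (h5 : ∀ u v, G.dist u v ≤ 5) : mr (power G 3) ≤ 4 := by
  classical
  set a := x 2 with ha
  set b := x 3 with hb
  have hab : G.Adj a b := SimpleGraph.dist_eq_one_iff_adj.mp (hx 2 3 (by omega) (by omega))
  have d02 : G.dist (x 0) a = 2 := hx 0 2 (by omega) (by omega)
  have d03 : G.dist (x 0) b = 3 := hx 0 3 (by omega) (by omega)
  have d25 : G.dist (x 5) a = 3 := by
    rw [SimpleGraph.dist_comm]; exact hx 2 5 (by omega) (by omega)
  have d35 : G.dist (x 5) b = 2 := by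
    rw [SimpleGraph.dist_comm]; exact hx 3 5 (by omega) (by omega)
  -- both sides have radius two
  have hS : ∀ v, G.dist v a < G.dist v b → G.dist v a ≤ 2 := by
    intro v hv
    have h1 := cross_dist hT hab hv (v := x 5) (by omega)
    have h2 := h5 v (x 5)
    rw [SimpleGraph.dist_comm (u := b) (v := x 5)] at h1
    omega
  have hS' : ∀ v, ¬ G.dist v a < G.dist v b → G.dist b v ≤ 2 := by
    intro v hv
    have h1 := cross_dist hT hab (u := x 0) (by omega) hv
    have h2 := h5 (x 0) v
    omega
  let L : V → ℝ := fun v => if Even (G.dist a v) then 1 else 0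
  let R : V → ℝ := fun v => if Even (G.dist a v) then 0 else 1
  let A : V → ℝ := fun v => if G.dist v a < G.dist v b ∧ G.dist v a = 2 then 1 else 0
  let X : V → ℝ := fun v => if ¬ G.dist v a < G.dist v b ∧ G.dist b v = 2 then 1 else 0
  -- parities
  have hdist : ∀ v, ¬ G.dist v a < G.dist v b → G.dist a v = G.dist b v + 1 := by
    intro v hv
    have h1 := cross_dist hT hab (u := a) (by
      rw [SimpleGraph.dist_self]
      exact hT.connected.pos_dist_of_ne hab.ne) hv
    rw [SimpleGraph.dist_self] at h1
    omega
  have hentry : ∀ u v, u ≠ v → Even (G.dist a u) → ¬ Even (G.dist a v) →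
      (L u * R v + R u * L v - A u * X v - X u * A v ≠ 0 ↔ (power G 3).Adj u v) := by
    intro u v huv hu hv
    have hLR : L u * R v + R u * L v = 1 := by simp [L, R, hu, hv]
    have hXA : X u * A v = 0 := by
      by_cases h1 : ¬ G.dist u a < G.dist u b ∧ G.dist b u = 2
      · exfalso
        have := hdist u h1.1
        rw [this, h1.2] at hu
        exact absurd hu (by decide)
      · simp only [X, h1, if_false, zero_mul]
    rw [hLR, hXA, sub_zero, power_adj hT]
    have hpar : Even (G.dist u v + 3) := by
      have h1 := dist_parity hT a u v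
      rw [Nat.even_iff] at h1 hu hv ⊢
      omega
    by_cases h1 : G.dist u a < G.dist u b
    · have c1 := hS u h1
      by_cases h2 : G.dist v a < G.dist v b
      · have c2 := hS v h2
        have hX : X v = 0 := by simp [X, h2]
        rw [hX, mul_zero, sub_zero]
        have c3 : G.dist u v ≤ G.dist u a + G.dist a v := hT.connected.dist_triangle
        rw [SimpleGraph.dist_comm (u := a) (v := v)] at c3
        have c4 : G.dist u v ≤ 3 := by
          rw [Nat.even_iff] at hpar
          omega
        simp [huv, c4, hpar]
      · have c2 := hS' v h2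
        have c3 := cross_dist hT hab h1 h2
        by_cases h3 : G.dist u a = 2
        · by_cases h4 : G.dist b v = 2
          · have e1 : A u = 1 := by simp only [A]; rw [if_pos ⟨h1, h3⟩]
            have e2 : X v = 1 := by simp only [X]; rw [if_pos ⟨h2, h4⟩]
            rw [e1, e2, mul_one, sub_self]
            have c4 : ¬ G.dist u v ≤ 3 := by omega
            simp [c4]
          · have e2 : X v = 0 := by simp only [X]; rw [if_neg (fun h => h4 h.2)]
            rw [e2, mul_zero, sub_zero]
            have c4 : G.dist u v ≤ 3 := by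
              rw [Nat.even_iff] at hpar
              omega
            simp [huv, c4, hpar]
        · have e1 : A u = 0 := by simp only [A]; rw [if_neg (fun h => h3 h.2)]
          rw [e1, zero_mul, sub_zero]
          have c4 : G.dist u v ≤ 3 := by
            rw [Nat.even_iff] at hpar
            omega
          simp [huv, c4, hpar]
    · have c1 := hS' u h1
      have e1 : A u = 0 := by simp only [A]; rw [if_neg (fun h => h1 h.1)]
      rw [e1, zero_mul, sub_zero]
      have c4 : G.dist u v ≤ 3 := by
        by_cases h2 : G.dist v a < G.dist v b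
        · have c2 := hS v h2
          have c3 := cross_dist hT hab h2 h1
          rw [SimpleGraph.dist_comm] at c3
          have c5 := hdist u h1
          rw [Nat.even_iff] at hpar hu
          omega
        · have c2 := hS' v h2
          have c3 : G.dist u v ≤ G.dist u b + G.dist b v := hT.connected.dist_triangle
          rw [SimpleGraph.dist_comm (u := u) (v := b)] at c3
          rw [Nat.even_iff] at hpar
          omega
      simp [huv, c4, hpar]
  let M : Matrix V V ℝ := vecMulVec L R + vecMulVec R L + vecMulVec (-A) X + vecMulVec (-X) A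
  have hM : ∀ u v, M u v = L u * R v + R u * L v - A u * X v - X u * A v := by
    intro u v
    simp only [M, Matrix.add_apply, vecMulVec_apply, Pi.neg_apply]
    ring
  refine mr_le (A := M) ⟨?_, ?_⟩ ?_
  · ext u v
    rw [transpose_apply, hM, hM]
    ring
  · intro u v huv
    rw [hM]
    by_cases hu : Even (G.dist a u) <;> by_cases hv : Even (G.dist a v)
    · -- both even: entry zero, not adjacent
      have e1 : X u = 0 := by
        simp only [X]
        rw [if_neg]
        rintro ⟨h1, h2⟩
        have := hdist u h1
        rw [this, h2] at hu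
        exact absurd hu (by decide)
      have e2 : X v = 0 := by
        simp only [X]
        rw [if_neg]
        rintro ⟨h1, h2⟩
        have := hdist v h1
        rw [this, h2] at hv
        exact absurd hv (by decide)
      have e3 : R u = 0 := by simp [R, hu]
      have e4 : R v = 0 := by simp [R, hv]
      rw [e1, e2, e3, e4, power_adj hT]
      constructor
      · intro h
        exact absurd (by ring) h
      · rintro ⟨_, _, h⟩
        exfalso
        have h1 := dist_parity hT a u v
        rw [Nat.even_iff] at h1 hu hv h
        omega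
    · exact hentry u v huv hu hv
    · have h1 := hentry v u (Ne.symm huv) hv hu
      rw [(power G 3).adj_comm u v, ← h1]
      have h2 : L u * R v + R u * L v - A u * X v - X u * A v =
        L v * R u + R v * L u - A v * X u - X v * A u := by ring
      rw [h2]
    · have e1 : A u = 0 := by
        simp only [A]
        rw [if_neg]
        rintro ⟨h1, h2⟩
        rw [SimpleGraph.dist_comm, h2] at hu
        exact hu (by decide)
      have e2 : A v = 0 := by
        simp only [A]
        rw [if_neg]
        rintro ⟨h1, h2⟩
        rw [SimpleGraph.dist_comm, h2] at hv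
        exact hv (by decide)
      have e3 : L u = 0 := by simp [L, hu]
      have e4 : L v = 0 := by simp [L, hv]
      rw [e1, e2, e3, e4, power_adj hT]
      constructor
      · intro h
        exact absurd (by ring) h
      · rintro ⟨_, _, h⟩
        exfalso
        have h1 := dist_parity hT a u v
        rw [Nat.even_iff] at h1 hu hv h
        omega
  · have r1 := rank_vecMulVec_le L R
    have r2 := rank_vecMulVec_le R L
    have r3 := rank_vecMulVec_le (-A) X
    have r4 := rank_vecMulVec_le (-X) A
    have s1 := rank_add_le (vecMulVec L R) (vecMulVec R L)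
    have s2 := rank_add_le (vecMulVec L R + vecMulVec R L) (vecMulVec (-A) X)
    have s3 := rank_add_le (vecMulVec L R + vecMulVec R L + vecMulVec (-A) X) (vecMulVec (-X) A)
    have s4 : M.rank = (vecMulVec L R + vecMulVec R L + vecMulVec (-A) X +
      vecMulVec (-X) A).rank := rfl
    omega

/-- Every tree of diameter 3, 4 or 5 is power-monotone. -/
theorem small_diameter [Fintype V] (hT : G.IsTree) (h3 : 3 ≤ G.diam) (h5 : G.diam ≤ 5) :
    PowerMonotone G := by
  have hd0 : G.diam ≠ 0 := by omega
  have : Nontrivial V := SimpleGraph.nontrivial_of_diam_ne_zero hd0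
  have : Nonempty V := hT.connected.nonempty
  have htop : G.ediam ≠ ⊤ := SimpleGraph.ediam_ne_top_of_diam_ne_zero hd0
  have hle : ∀ u v, G.dist u v ≤ G.diam := fun u v => SimpleGraph.dist_le_diam htop
  obtain ⟨u, v, huv⟩ := G.exists_dist_eq_diam
  obtain ⟨x, _, hx⟩ := exists_geo hT G.diam u v (by omega)
  have hx3 : Geo G 3 x := fun i j hij hj => hx i j hij (by omega)
  intro j hj
  rcases Nat.lt_or_ge j 2 with h | h
  · have : j = 1 := by omega
    subst this
    exact first_step hT
  · by_cases h6 : G.diam ≤ j + 2
    · exact le_trans (mr_high hT (j + 1) (fun u v => le_trans (hle u v) h6))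
        (two_le_mr hT x hx3 j hj)
    · have h7 : G.diam = 5 := by omega
      have h8 : j = 2 := by omega
      subst h8
      have hx5 : Geo G 5 x := fun i j hij hj => hx i j hij (by omega)
      exact le_trans (mr_three hT x hx5 (fun u v => h7 ▸ hle u v)) (four_le_mr hT x hx5)

end MP939afb.Small
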