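import Pool.Agent.Lib.MP_939afb_co.DD

/-!
A root joined to the centres of `k` spiders, each with two legs of length `m + 1` and two legs
of length `m + 2`.  Vertices are triples `(copy, leg, height)`; the root is `(k, 0, 0)`, the
centre of copy `i` is `(i, 0, 1)`.
-/

namespace MP939afb

open Matrix

/-- admissible coordinates -/
def Ok (m k c l h : ℕ) : Prop :=
  (c = k ∧ l = 0 ∧ h = 0) ∨
    (c < k ∧ l < 4 ∧ 1 ≤ h ∧ h ≤ m + 3 ∧ (h = 1 → l = 0) ∧ (l ≤ 1 → h ≤ m + 2))

/-- the vertex set -/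
def SV (m k : ℕ) : Type :=
  {p : Fin (k + 1) × Fin 4 × Fin (m + 4) // Ok m k p.1 p.2.1 p.2.2}

noncomputable instance (m k : ℕ) : Fintype (SV m k) := by
  unfold SV
  exact Fintype.ofFinite _

namespace SV

variable {m k : ℕ}

def c (v : SV m k) : ℕ := v.1.1
def l (v : SV m k) : ℕ := v.1.2.1
def h (v : SV m k) : ℕ := v.1.2.2

lemma ok (v : SV m k) : Ok m k v.c v.l v.h := v.2

lemma ext' {u v : SV m k} (h1 : u.c = v.c) (h2 : u.l = v.l) (h3 : u.h = v.h) : u = v := by
  apply Subtype.ext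
  exact Prod.ext (Fin.ext h1) (Prod.ext (Fin.ext h2) (Fin.ext h3))

lemma ne_iff {u v : SV m k} : u ≠ v ↔ ¬ (u.c = v.c ∧ u.l = v.l ∧ u.h = v.h) := by
  constructor
  · intro h1 h2
    exact h1 (ext' h2.1 h2.2.1 h2.2.2)
  · rintro h1 rfl
    exact h1 ⟨rfl, rfl, rfl⟩

lemma exists_of_ok {c l h : ℕ} (hok : Ok m k c l h) : ∃ v : SV m k, v.c = c ∧ v.l = l ∧ v.h = h := by
  have hc : c < k + 1 := by unfold Ok at hok; omega
  have hl : l < 4 := by unfold Ok at hok; omega
  have hh : h < m + 4 := by unfold Ok at hok; omega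
  exact ⟨⟨(⟨c, hc⟩, ⟨l, hl⟩, ⟨h, hh⟩), hok⟩, rfl, rfl, rfl⟩

open Classical in
/-- the vertex with given coordinates -/
noncomputable def vx (m k c l h : ℕ) (hok : Ok m k c l h) : SV m k :=
  (exists_of_ok hok).choose

lemma vx_c {c l h : ℕ} (hok : Ok m k c l h) : (vx m k c l h hok).c = c :=
  (exists_of_ok hok).choose_spec.1

lemma vx_l {c l h : ℕ} (hok : Ok m k c l h) : (vx m k c l h hok).l = l :=
  (exists_of_ok hok).choose_spec.2.1

lemma vx_h {c l h : ℕ} (hok : Ok m k c l h) : (vx m k c l h hok).h = h :=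
  (exists_of_ok hok).choose_spec.2.2

/-- distance in coordinates -/
def D (u v : SV m k) : ℕ :=
  if u.c ≠ v.c then u.h + v.h
  else if u.l = v.l ∨ u.h ≤ 1 ∨ v.h ≤ 1 then (u.h - v.h) + (v.h - u.h)
  else u.h + v.h - 2

/-- the tree -/
def T (m k : ℕ) : SimpleGraph (SV m k) where
  Adj u v := D u v = 1
  symm := by
    constructor
    intro u v h
    unfold D at *
    split_ifs at * <;> omega
  loopless := by
    constructor
    intro u h
    unfold D at h
    split_ifs at h <;> omega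

lemma T_adj (u v : SV m k) : (T m k).Adj u v ↔ D u v = 1 := Iff.rfl

lemma D_self (u : SV m k) : D u u = 0 := by
  unfold D
  split_ifs <;> omega

lemma D_adj_le (u w v : SV m k) (h : D u w = 1) : D u v ≤ D w v + 1 := by
  have hu := u.ok
  have hv := v.ok
  have hw := w.ok
  unfold Ok at *
  unfold D at *
  split_ifs at * <;> omega

lemma D_adj_par (u w v : SV m k) (h : D u w = 1) : (D u v + D w v) % 2 = 1 := by
  have hu := u.ok
  have hv := v.ok
  have hw := w.ok
  unfold Ok at *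
  unfold D at *
  split_ifs at * <;> omega

lemma exists_parent (u : SV m k) (_ : u.h ≠ 0) : ∃ w : SV m k,
    (u.h = 1 → w.c = k ∧ w.l = 0 ∧ w.h = 0) ∧
    (u.h = 2 → w.c = u.c ∧ w.l = 0 ∧ w.h = 1) ∧
    (3 ≤ u.h → w.c = u.c ∧ w.l = u.l ∧ w.h = u.h - 1) := by
  have ho := u.ok
  unfold Ok at ho
  by_cases h1 : u.h = 1
  · obtain ⟨w, hw⟩ := exists_of_ok (m := m) (k := k) (c := k) (l := 0) (h := 0)
      (by unfold Ok; omega)
    exact ⟨w, fun _ => hw, by omega, by omega⟩
  · by_cases h2 : u.h = 2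
    · obtain ⟨w, hw⟩ := exists_of_ok (m := m) (k := k) (c := u.c) (l := 0) (h := 1)
        (by unfold Ok; omega)
      exact ⟨w, by omega, fun _ => hw, by omega⟩
    · obtain ⟨w, hw⟩ := exists_of_ok (m := m) (k := k) (c := u.c) (l := u.l) (h := u.h - 1)
        (by unfold Ok; omega)
      exact ⟨w, by omega, by omega, fun _ => hw⟩

lemma D_step (u v : SV m k) (huv : u ≠ v) : ∃ w, D u w = 1 ∧ D u v = D w v + 1 := by
  rw [ne_iff] at huv
  have hu := u.ok
  have hv := v.ok
  by_cases h0 : u.h = 0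
  · obtain ⟨w, h1, h2, h3⟩ := exists_of_ok (m := m) (k := k) (c := v.c) (l := 0) (h := 1)
      (by unfold Ok at *; omega)
    refine ⟨w, ?_, ?_⟩
    · unfold Ok at *
      unfold D
      split_ifs <;> omega
    · unfold Ok at *
      unfold D
      split_ifs <;> omega
  · by_cases hdesc : u.c = v.c ∧ (u.h = 1 ∨ u.l = v.l) ∧ u.h < v.h
    · obtain ⟨w, h1, h2, h3⟩ := exists_of_ok (m := m) (k := k) (c := v.c) (l := v.l)
        (h := u.h + 1) (by unfold Ok at *; omega)
      refine ⟨w, ?_, ?_⟩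
      · unfold Ok at *
        unfold D
        split_ifs <;> omega
      · unfold Ok at *
        unfold D
        split_ifs <;> omega
    · obtain ⟨w, h1, h2, h3⟩ := exists_parent u h0
      have hw := w.ok
      refine ⟨w, ?_, ?_⟩
      · unfold Ok at *
        unfold D
        split_ifs <;> omega
      · unfold Ok at *
        unfold D
        split_ifs <;> omega

lemma dd (m k : ℕ) : DD (T m k) D :=
  ⟨D_self, fun u w v h => D_adj_le u w v h, fun u w v h => D_adj_par u w v h,
    fun u v h => D_step u v h⟩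

end SV

end MP939afb
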