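import Pool.Agent.Lib.MP_939afb_co.Spider

/-!
The bounds for the minimum ranks of two consecutive powers.
-/

namespace MP939afb

open Matrix

namespace SV

variable {m k : ℕ}

lemma nontrivial_SV (hk : 1 ≤ k) : Nontrivial (SV m k) := by
  obtain ⟨u, hu⟩ := exists_of_ok (m := m) (k := k) (c := k) (l := 0) (h := 0)
    (by unfold Ok; omega)
  obtain ⟨v, hv⟩ := exists_of_ok (m := m) (k := k) (c := 0) (l := 0) (h := 1)
    (by unfold Ok; omega)
  refine ⟨u, v, ?_⟩
  rw [ne_iff]
  omega

open Classical in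
/-- the parent -/
noncomputable def par (u : SV m k) : SV m k :=
  if hu : u.h ≠ 0 then (exists_parent u hu).choose else u

lemma par_spec (u : SV m k) (hu : u.h ≠ 0) :
    (u.h = 1 → (par u).c = k ∧ (par u).l = 0 ∧ (par u).h = 0) ∧
    (u.h = 2 → (par u).c = u.c ∧ (par u).l = 0 ∧ (par u).h = 1) ∧
    (3 ≤ u.h → (par u).c = u.c ∧ (par u).l = u.l ∧ (par u).h = u.h - 1) := by
  unfold par
  rw [dif_pos hu]
  exact (exists_parent u hu).choose_spec

lemma D_par (u : SV m k) (hu : u.h ≠ 0) : D u (par u) = 1 := by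
  have h1 := par_spec u hu
  have h2 := u.ok
  have h3 := (par u).ok
  unfold Ok at *
  unfold D
  split_ifs <;> omega

lemma isTree (m k : ℕ) : (T m k).IsTree := by
  obtain ⟨r, hr⟩ := exists_of_ok (m := m) (k := k) (c := k) (l := 0) (h := 0)
    (by unfold Ok; omega)
  have hne : Nonempty (SV m k) := ⟨r⟩
  refine isTree_of_parent (dd m k).connected r par ?_ ?_
  · intro v hv
    rw [ne_iff] at hv
    have := v.ok
    unfold Ok at this
    exact D_par v (by omega)
  · intro u v huv
    rw [T_adj] at huv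
    have hu := u.ok
    have hv := v.ok
    by_cases hlt : v.h < u.h
    · left
      have hp := par_spec u (by omega)
      have hp2 := (par u).ok
      refine ⟨by rw [ne_iff]; omega, ?_⟩
      unfold D at huv
      unfold Ok at *
      split_ifs at huv <;> exact ext' (by omega) (by omega) (by omega)
    · right
      have hv0 : v.h ≠ 0 := by
        intro h0
        unfold D at huv
        unfold Ok at *
        split_ifs at huv <;> omega
      have hp := par_spec v hv0
      have hp2 := (par v).ok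
      refine ⟨by rw [ne_iff]; omega, ?_⟩
      unfold D at huv
      unfold Ok at *
      split_ifs at huv <;> exact ext' (by omega) (by omega) (by omega)

/-- indicator of a ball, restricted to one parity class -/
def B (t : SV m k) (ρ : ℕ) (x : SV m k) : ℝ :=
  if D x t ≤ ρ ∧ (D x t + ρ) % 2 = 0 then 1 else 0

lemma B_nonneg (t : SV m k) (ρ : ℕ) (x : SV m k) : 0 ≤ B t ρ x := by
  unfold B
  split_ifs <;> norm_num

lemma B_ne {t : SV m k} {ρ : ℕ} {x : SV m k} :
    B t ρ x ≠ 0 ↔ (D x t ≤ ρ ∧ (D x t + ρ) % 2 = 0) := by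
  unfold B
  split_ifs with h <;> simp [h]

lemma ok0 (i : Fin k) : Ok m k i 0 1 := by have := i.2; unfold Ok; omega
lemma ok1 (i : Fin k) : Ok m k i 2 3 := by have := i.2; unfold Ok; omega
lemma ok2 (i : Fin k) : Ok m k i 3 3 := by have := i.2; unfold Ok; omega

/-- the coordinates of the three points of copy `i` -/
noncomputable def tt (m k : ℕ) (i : Fin k) : Fin 3 → SV m k := fun s =>
  match s with
  | 0 => vx m k i 0 1 (ok0 i)
  | 1 => vx m k i 2 3 (ok1 i)
  | 2 => vx m k i 3 3 (ok2 i)

lemma tt0 (i : Fin k) : (tt m k i 0).c = i ∧ (tt m k i 0).l = 0 ∧ (tt m k i 0).h = 1 :=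
  ⟨vx_c (ok0 i), vx_l (ok0 i), vx_h (ok0 i)⟩
lemma tt1 (i : Fin k) : (tt m k i 1).c = i ∧ (tt m k i 1).l = 2 ∧ (tt m k i 1).h = 3 :=
  ⟨vx_c (ok1 i), vx_l (ok1 i), vx_h (ok1 i)⟩
lemma tt2 (i : Fin k) : (tt m k i 2).c = i ∧ (tt m k i 2).l = 3 ∧ (tt m k i 2).h = 3 :=
  ⟨vx_c (ok2 i), vx_l (ok2 i), vx_h (ok2 i)⟩

/-- the contribution of copy `i` -/
noncomputable def P (m k : ℕ) (i : Fin k) : Matrix (SV m k) (SV m k) ℝ :=
  vecMulVec (B (tt m k i 0) m) (B (tt m k i 0) m) +
  vecMulVec (B (tt m k i 1) m) (B (tt m k i 1) m) +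
  vecMulVec (B (tt m k i 2) m) (B (tt m k i 2) m) +
  (vecMulVec (B (tt m k i 0) (m - 1)) (B (tt m k i 0) (m + 1)) +
  vecMulVec (B (tt m k i 0) (m + 1)) (B (tt m k i 0) (m - 1)))

lemma P_apply (i : Fin k) (x y : SV m k) : P m k i x y =
    B (tt m k i 0) m x * B (tt m k i 0) m y + B (tt m k i 1) m x * B (tt m k i 1) m y +
    B (tt m k i 2) m x * B (tt m k i 2) m y +
    (B (tt m k i 0) (m - 1) x * B (tt m k i 0) (m + 1) y +
      B (tt m k i 0) (m + 1) x * B (tt m k i 0) (m - 1) y) := rfl

lemma P_nonneg (i : Fin k) (x y : SV m k) : 0 ≤ P m k i x y := by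
  rw [P_apply]
  have h1 := mul_nonneg (B_nonneg (tt m k i 0) m x) (B_nonneg (tt m k i 0) m y)
  have h2 := mul_nonneg (B_nonneg (tt m k i 1) m x) (B_nonneg (tt m k i 1) m y)
  have h3 := mul_nonneg (B_nonneg (tt m k i 2) m x) (B_nonneg (tt m k i 2) m y)
  have h4 := mul_nonneg (B_nonneg (tt m k i 0) (m - 1) x) (B_nonneg (tt m k i 0) (m + 1) y)
  have h5 := mul_nonneg (B_nonneg (tt m k i 0) (m + 1) x) (B_nonneg (tt m k i 0) (m - 1) y)
  linarith

lemma P_symm (i : Fin k) (x y : SV m k) : P m k i x y = P m k i y x := by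
  rw [P_apply, P_apply]
  ring

lemma P_rank (i : Fin k) : (P m k i).rank ≤ 5 := by
  unfold P
  refine le_trans (rank_add_le _ _) ?_
  have h1 := rank_add_le (vecMulVec (B (tt m k i 0) m) (B (tt m k i 0) m) +
    vecMulVec (B (tt m k i 1) m) (B (tt m k i 1) m))
    (vecMulVec (B (tt m k i 2) m) (B (tt m k i 2) m))
  have h2 := rank_add_le (vecMulVec (B (tt m k i 0) m) (B (tt m k i 0) m))
    (vecMulVec (B (tt m k i 1) m) (B (tt m k i 1) m))
  have h3 := rank_add_le (vecMulVec (B (tt m k i 0) (m - 1)) (B (tt m k i 0) (m + 1)))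
    (vecMulVec (B (tt m k i 0) (m + 1)) (B (tt m k i 0) (m - 1)))
  have g1 := Matrix.rank_vecMulVec_le (B (tt m k i 0) m) (B (tt m k i 0) m)
  have g2 := Matrix.rank_vecMulVec_le (B (tt m k i 1) m) (B (tt m k i 1) m)
  have g3 := Matrix.rank_vecMulVec_le (B (tt m k i 2) m) (B (tt m k i 2) m)
  have g4 := Matrix.rank_vecMulVec_le (B (tt m k i 0) (m - 1)) (B (tt m k i 0) (m + 1))
  have g5 := Matrix.rank_vecMulVec_le (B (tt m k i 0) (m + 1)) (B (tt m k i 0) (m - 1))
  omega

/-- two balls around a common point -/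
lemma near {t x y : SV m k} {ρ σ : ℕ} (hρ : ρ + σ = 2 * m) (hx : B t ρ x ≠ 0)
    (hy : B t σ y ≠ 0) : D x y ≤ 2 * m ∧ (D x y + 2 * m) % 2 = 0 := by
  rw [B_ne] at hx hy
  have hne : Nonempty (SV m k) := ⟨x⟩
  have h1 := (dd m k).triangle x t y
  have h2 := (dd m k).par x t y
  have h3 := (dd m k).symm t y
  omega

/-- every close pair is seen by one of the pieces -/
lemma cover (hm : 1 ≤ m) {x y : SV m k} (hxy : x ≠ y) (hd : D x y ≤ 2 * m)
    (hp : D x y % 2 = 0) (hle : y.h ≤ x.h) : ∃ i : Fin k, P m k i x y ≠ 0 := by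
  have hx := x.ok
  have hy := y.ok
  rw [ne_iff] at hxy
  have hck : x.c < k := by
    unfold Ok at hx hy
    omega
  refine ⟨⟨x.c, hck⟩, ?_⟩
  obtain ⟨a0, a1, a2⟩ := tt0 (m := m) (⟨x.c, hck⟩ : Fin k)
  obtain ⟨b0, b1, b2⟩ := tt1 (m := m) (⟨x.c, hck⟩ : Fin k)
  obtain ⟨c0, c1, c2⟩ := tt2 (m := m) (⟨x.c, hck⟩ : Fin k)
  simp only at a0 b0 c0
  have pos : ∀ {t : SV m k} {ρ σ : ℕ}, B t ρ x ≠ 0 → B t σ y ≠ 0 → 0 < B t ρ x * B t σ y := by
    intro t ρ σ h1 h2
    exact mul_pos (lt_of_le_of_ne (B_nonneg _ _ _) (Ne.symm h1))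
      (lt_of_le_of_ne (B_nonneg _ _ _) (Ne.symm h2))
  have nn : ∀ (t : SV m k) (ρ σ : ℕ), 0 ≤ B t ρ x * B t σ y := fun t ρ σ =>
    mul_nonneg (B_nonneg _ _ _) (B_nonneg _ _ _)
  set i : Fin k := ⟨x.c, hck⟩ with hi
  have n1 := nn (tt m k i 0) m m
  have n2 := nn (tt m k i 1) m m
  have n3 := nn (tt m k i 2) m m
  have n4 := nn (tt m k i 0) (m - 1) (m + 1)
  have n5 := nn (tt m k i 0) (m + 1) (m - 1)
  rw [P_apply]
  by_cases hcls : (x.h + m) % 2 = 1
  · by_cases hxm : x.h ≤ m + 1
    · have : 0 < B (tt m k i 0) m x * B (tt m k i 0) m y := by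
        apply pos
        · rw [B_ne]
          unfold Ok at *
          unfold D at *
          split_ifs at * <;> omega
        · rw [B_ne]
          unfold Ok at *
          unfold D at *
          split_ifs at * <;> omega
      exact ne_of_gt (by linarith)
    · by_cases hl : x.l = 2
      · have : 0 < B (tt m k i 1) m x * B (tt m k i 1) m y := by
          apply pos
          · rw [B_ne]
            unfold Ok at *
            unfold D at *
            split_ifs at * <;> omega
          · rw [B_ne]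
            unfold Ok at *
            unfold D at *
            split_ifs at * <;> omega
        exact ne_of_gt (by linarith)
      · have : 0 < B (tt m k i 2) m x * B (tt m k i 2) m y := by
          apply pos
          · rw [B_ne]
            unfold Ok at *
            unfold D at *
            split_ifs at * <;> omega
          · rw [B_ne]
            unfold Ok at *
            unfold D at *
            split_ifs at * <;> omega
        exact ne_of_gt (by linarith)
  · by_cases hxm : x.h ≤ m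
    · have : 0 < B (tt m k i 0) (m - 1) x * B (tt m k i 0) (m + 1) y := by
        apply pos
        · rw [B_ne]
          unfold Ok at *
          unfold D at *
          split_ifs at * <;> omega
        · rw [B_ne]
          unfold Ok at *
          unfold D at *
          split_ifs at * <;> omega
      exact ne_of_gt (by linarith)
    · have : 0 < B (tt m k i 0) (m + 1) x * B (tt m k i 0) (m - 1) y := by
        apply pos
        · rw [B_ne]
          unfold Ok at *
          unfold D at *
          split_ifs at * <;> omega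
        · rw [B_ne]
          unfold Ok at *
          unfold D at *
          split_ifs at * <;> omega
      exact ne_of_gt (by linarith)

end SV

end MP939afb
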