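import Pool.Agent.Lib.MP_939afb_co.Spider2

/-!
Trees for which an even power has smaller minimum rank than the next odd power.
-/

namespace MP939afb

open Matrix

namespace SV

variable {m k : ℕ}

/-- upper bound for the even power -/
lemma upper (hm : 1 ≤ m) (hk : 1 ≤ k) : mr (power (T m k) (2 * m)) ≤ 5 * k := by
  have hnt := nontrivial_SV (m := m) hk
  have happ : ∀ x y : SV m k, (∑ i : Fin k, P m k i) x y = ∑ i : Fin k, P m k i x y := by
    intro x y
    rw [Matrix.sum_apply]
  have hne : ∀ x y : SV m k, (∑ i : Fin k, P m k i) x y ≠ 0 ↔ ∃ i, P m k i x y ≠ 0 := by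
    intro x y
    rw [happ]
    constructor
    · intro h
      obtain ⟨i, -, hi⟩ := Finset.exists_ne_zero_of_sum_ne_zero h
      exact ⟨i, hi⟩
    · rintro ⟨i, hi⟩
      exact ne_of_gt (lt_of_lt_of_le (lt_of_le_of_ne (P_nonneg i x y) (Ne.symm hi))
        (Finset.single_le_sum (f := fun i => P m k i x y) (fun j _ => P_nonneg j x y)
          (Finset.mem_univ i)))
  have hS : MatS (power (T m k) (2 * m)) (∑ i : Fin k, P m k i) := by
    refine ⟨?_, ?_⟩
    · ext x y
      rw [Matrix.transpose_apply, happ, happ]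
      exact Finset.sum_congr rfl fun i _ => P_symm i y x
    · intro x y hxy
      rw [hne, (dd m k).power_adj]
      constructor
      · rintro ⟨i, hi⟩
        refine ⟨hxy, ?_⟩
        rw [P_apply] at hi
        have key : (B (tt m k i 0) m x * B (tt m k i 0) m y ≠ 0 ∨
            B (tt m k i 1) m x * B (tt m k i 1) m y ≠ 0 ∨
            B (tt m k i 2) m x * B (tt m k i 2) m y ≠ 0 ∨
            B (tt m k i 0) (m - 1) x * B (tt m k i 0) (m + 1) y ≠ 0 ∨
            B (tt m k i 0) (m + 1) x * B (tt m k i 0) (m - 1) y ≠ 0) := by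
          by_contra hcon
          push Not at hcon
          obtain ⟨h1, h2, h3, h4, h5⟩ := hcon
          rw [h1, h2, h3, h4, h5] at hi
          norm_num at hi
        rcases key with h | h | h | h | h
        · exact near (by omega) (left_ne_zero_of_mul h) (right_ne_zero_of_mul h)
        · exact near (by omega) (left_ne_zero_of_mul h) (right_ne_zero_of_mul h)
        · exact near (by omega) (left_ne_zero_of_mul h) (right_ne_zero_of_mul h)
        · exact near (by omega) (left_ne_zero_of_mul h) (right_ne_zero_of_mul h)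
        · exact near (by omega) (left_ne_zero_of_mul h) (right_ne_zero_of_mul h)
      · rintro ⟨-, h1, h2⟩
        rcases le_total y.h x.h with hle | hle
        · exact cover hm hxy h1 (by omega) hle
        · have hs := (dd m k).symm x y
          obtain ⟨i, hi⟩ := cover hm (Ne.symm hxy) (by omega) (by omega) hle
          exact ⟨i, by rw [P_symm]; exact hi⟩
  refine mr_le hS ?_
  have := rank_sum_le (Finset.univ : Finset (Fin k)) (fun i => P m k i) 5
    (fun i _ => P_rank i)
  rw [Finset.card_univ, Fintype.card_fin] at this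
  omega

/-- legs and heights of the rows -/
def rl (m : ℕ) : Fin 6 → ℕ × ℕ :=
  ![(0, m + 2), (2, m + 2), (2, m + 3), (0, m), (3, m + 3), (0, m + 1)]

/-- legs and heights of the columns -/
def cl (m : ℕ) : Fin 6 → ℕ × ℕ :=
  ![(1, m + 1), (2, m + 3), (0, m), (3, m + 3), (3, m + 2), (1, m + 2)]

lemma ok_rl (hm : 1 ≤ m) (i : Fin k) (s : Fin 6) : Ok m k i (rl m s).1 (rl m s).2 := by
  have := i.2
  unfold Ok
  fin_cases s <;> simp [rl] <;> omega

lemma ok_cl (hm : 1 ≤ m) (i : Fin k) (s : Fin 6) : Ok m k i (cl m s).1 (cl m s).2 := by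
  have := i.2
  unfold Ok
  fin_cases s <;> simp [cl] <;> omega

/-- lower bound for the odd power -/
lemma lower (hm : 1 ≤ m) (hk : 1 ≤ k) : 6 * k ≤ mr (power (T m k) (2 * m + 1)) := by
  have hnt := nontrivial_SV (m := m) hk
  have h := card_le_mr (power (T m k) (2 * m + 1)) (ι := Fin k × Fin 6)
    (fun p => vx m k p.1 (rl m p.2).1 (rl m p.2).2 (ok_rl hm p.1 p.2))
    (fun p => vx m k p.1 (cl m p.2).1 (cl m p.2).2 (ok_cl hm p.1 p.2))
    (fun p => (p.2 : ℕ)) ?_ ?_
  · rw [Fintype.card_prod, Fintype.card_fin, Fintype.card_fin] at h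
    omega
  · rintro ⟨i, s⟩
    rw [(dd m k).power_adj, ne_iff]
    simp only [D, vx_c, vx_l, vx_h]
    fin_cases s <;> simp [rl, cl] <;> (try split_ifs) <;> omega
  · rintro ⟨i, s⟩ ⟨i', s'⟩ hne hw
    rw [(dd m k).power_adj, ne_iff]
    simp only [D, vx_c, vx_l, vx_h]
    simp only [ne_eq, Prod.mk.injEq] at hne hw
    by_cases hi : (i : ℕ) = (i' : ℕ)
    · have hs : s ≠ s' := fun h => hne ⟨Fin.ext hi, h⟩
      simp only [hi]
      fin_cases s <;> fin_cases s' <;> simp at hs hw <;> simp [rl, cl] <;> (try split_ifs) <;>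
        omega
    · simp only [ne_eq, hi, not_false_eq_true, if_true]
      fin_cases s <;> fin_cases s' <;> simp at hw <;> simp [rl, cl] <;> omega

end SV

end MP939afb
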